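import Mathlib

open Finset

namespace Pool.Agent.Lib.MP_0da313_nt

lemma count_coprime {a b : ℕ} (ha : a ≠ 0) (hb : b ≠ 0) (hab : a.Coprime b) (P Q : ℕ → Prop)
    [DecidablePred P] [DecidablePred Q] (hP : ∀ x, P (x % a) ↔ P x) (hQ : ∀ x, Q (x % b) ↔ Q x) :
    ((range (a * b)).filter (fun x => P x ∧ Q x)).card
      = ((range a).filter P).card * ((range b).filter Q).card := by
  rw [← Finset.card_product]
  apply Finset.card_nbij' (fun x => (x % a, x % b))
    (fun y => ((Nat.chineseRemainder hab y.1 y.2 : { k // k ≡ y.1 [MOD a] ∧ k ≡ y.2 [MOD b] }) : ℕ))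
  · intro x hx
    simp only [Finset.coe_filter, Finset.mem_range, Set.mem_ofPred_eq, Finset.coe_product,
      Set.mem_prod] at hx ⊢
    exact ⟨⟨Nat.mod_lt _ (Nat.pos_of_ne_zero ha), (hP x).mpr hx.2.1⟩,
      ⟨Nat.mod_lt _ (Nat.pos_of_ne_zero hb), (hQ x).mpr hx.2.2⟩⟩
  · intro y hy
    simp only [Finset.coe_filter, Finset.mem_range, Set.mem_ofPred_eq, Finset.coe_product,
      Set.mem_prod] at hy ⊢
    obtain ⟨h1, h2⟩ := (Nat.chineseRemainder hab y.1 y.2).2
    refine ⟨Nat.chineseRemainder_lt_mul hab _ _ ha hb, ?_, ?_⟩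
    · rw [← hP, h1, Nat.mod_eq_of_lt hy.1.1]; exact hy.1.2
    · rw [← hQ, h2, Nat.mod_eq_of_lt hy.2.1]; exact hy.2.2
  · intro x hx
    simp only [Finset.coe_filter, Finset.mem_range, Set.mem_ofPred_eq] at hx
    obtain ⟨h1, h2⟩ := (Nat.chineseRemainder hab (x % a) (x % b)).2
    have h3 := Nat.chineseRemainder_lt_mul hab (x % a) (x % b) ha hb
    have h4 : ((Nat.chineseRemainder hab (x % a) (x % b) :
        { k // k ≡ x % a [MOD a] ∧ k ≡ x % b [MOD b] }) : ℕ) ≡ x [MOD a * b] := by
      rw [← Nat.modEq_and_modEq_iff_modEq_mul hab]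
      exact ⟨h1.trans (Nat.mod_modEq _ _), h2.trans (Nat.mod_modEq _ _)⟩
    exact Nat.ModEq.eq_of_lt_of_lt h4 h3 hx.1
  · intro y hy
    simp only [Finset.coe_filter, Finset.mem_range, Set.mem_ofPred_eq, Finset.coe_product,
      Set.mem_prod] at hy
    obtain ⟨h1, h2⟩ := (Nat.chineseRemainder hab y.1 y.2).2
    apply Prod.ext
    · show _ % a = y.1
      rw [h1, Nat.mod_eq_of_lt hy.1.1]
    · show _ % b = y.2
      rw [h2, Nat.mod_eq_of_lt hy.2.1]

/-- counting simultaneous conditions modulo distinct primes. -/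
lemma count_primes (Q : ℕ → ℕ → Prop) [∀ p, DecidablePred (Q p)]
    (hQ : ∀ p x, Q p (x % p) ↔ Q p x) (T : Finset ℕ) (hT : ∀ p ∈ T, p.Prime) :
    ((range (∏ p ∈ T, p)).filter (fun x => ∀ p ∈ T, Q p x)).card
      = ∏ p ∈ T, ((range p).filter (Q p)).card := by
  induction T using Finset.induction_on with
  | empty => simp
  | insert p T hp ih =>
    have ih := ih (fun q hq => hT q (Finset.mem_insert_of_mem hq))
    have hpp := hT p (Finset.mem_insert_self _ _)
    rw [Finset.prod_insert hp, Finset.prod_insert hp, ← ih]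
    have hcop : p.Coprime (∏ q ∈ T, q) := by
      apply Nat.Coprime.prod_right
      intro q hq
      rw [Nat.coprime_primes hpp (hT q (Finset.mem_insert_of_mem hq))]
      rintro rfl
      exact hp hq
    have hne : ∏ q ∈ T, q ≠ 0 := by
      rw [Finset.prod_ne_zero_iff]
      intro q hq
      exact (hT q (Finset.mem_insert_of_mem hq)).ne_zero
    have hper : ∀ x, (∀ q ∈ T, Q q (x % ∏ q ∈ T, q)) ↔ (∀ q ∈ T, Q q x) := by
      intro x
      have : ∀ q ∈ T, (Q q (x % ∏ q ∈ T, q) ↔ Q q x) := by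
        intro q hq
        rw [← hQ q (x % _), Nat.mod_mod_of_dvd _ (Finset.dvd_prod_of_mem _ hq), hQ]
      exact ⟨fun h q hq => (this q hq).mp (h q hq), fun h q hq => (this q hq).mpr (h q hq)⟩
    rw [← count_coprime hpp.ne_zero hne hcop (Q p) (fun x => ∀ q ∈ T, Q q x) (hQ p) hper]
    congr 1
    apply Finset.filter_congr
    intro x _
    simp only [Finset.mem_insert, forall_eq_or_imp]

/-- periodic predicates on intervals. -/
lemma count_interval (R : ℕ → Prop) [DecidablePred R] {d : ℕ} (hd : 0 < d)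
    (hR : Function.Periodic R d) (X : ℕ) :
    |(((Ico 1 (1 + X)).filter R).card : ℝ) - X * ((((range d).filter R).card : ℝ) / d)|
      ≤ (((range d).filter R).card : ℝ) := by
  set c := ((range d).filter R).card with hc
  have hblock : ∀ n, ((Ico n (n + d)).filter R).card = c := by
    intro n
    rw [Nat.filter_Ico_card_eq_of_periodic n d R hR, Nat.count_eq_card_filter_range]
  have hq : ∀ q n, ((Ico n (n + d * q)).filter R).card = q * c := by
    intro q
    induction q with
    | zero => intro n; simp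
    | succ q ih =>
      intro n
      have h1 : Ico n (n + d * (q + 1)) = Ico n (n + d * q) ∪ Ico (n + d * q) (n + d * q + d) := by
        rw [Finset.Ico_union_Ico_eq_Ico (by omega) (by omega)]
        congr 1
        ring
      rw [h1, Finset.filter_union, Finset.card_union_of_disjoint, ih, hblock]
      · ring
      · apply Finset.disjoint_filter_filter
        exact Finset.Ico_disjoint_Ico_consecutive _ _ _
  obtain ⟨q, r, hX, hr⟩ : ∃ q r, X = d * q + r ∧ r < d :=
    ⟨X / d, X % d, (Nat.div_add_mod X d).symm, Nat.mod_lt _ hd⟩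
  have h2 : ((Ico 1 (1 + X)).filter R).card
      = q * c + ((Ico (1 + d * q) (1 + X)).filter R).card := by
    rw [← hq q 1, ← Finset.card_union_of_disjoint, ← Finset.filter_union,
      Finset.Ico_union_Ico_eq_Ico (by omega) (by omega)]
    apply Finset.disjoint_filter_filter
    exact Finset.Ico_disjoint_Ico_consecutive _ _ _
  have h3 : ((Ico (1 + d * q) (1 + X)).filter R).card ≤ c := by
    rw [← hblock (1 + d * q)]
    apply Finset.card_le_card
    apply Finset.filter_subset_filter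
    apply Finset.Ico_subset_Ico_right
    omega
  rw [h2]
  set e := ((Ico (1 + d * q) (1 + X)).filter R).card
  have hd' : (0 : ℝ) < d := by exact_mod_cast hd
  have hX' : (X : ℝ) = d * q + r := by exact_mod_cast hX
  have e1 : (X : ℝ) * ((c : ℝ) / d) = q * c + r / d * c := by
    rw [hX']
    field_simp
  rw [e1]
  have h4 : (0 : ℝ) ≤ (r : ℝ) / d := by positivity
  have h5 : (r : ℝ) / d ≤ 1 := by
    rw [div_le_one hd']
    exact_mod_cast hr.le
  have h6 : (0 : ℝ) ≤ (c : ℝ) := by positivity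
  have h7 : (e : ℝ) ≤ c := by exact_mod_cast h3
  have h8 : (0 : ℝ) ≤ (e : ℝ) := by positivity
  push_cast
  rw [abs_le]
  constructor <;> nlinarith

/-- the counting estimate used in the sieve. -/
lemma count_estimate (Q : ℕ → ℕ → Prop) [∀ p, DecidablePred (Q p)]
    (hQ : ∀ p x, Q p (x % p) ↔ Q p x) (T : Finset ℕ) (hT : ∀ p ∈ T, p.Prime) (X : ℕ) :
    |∑ x ∈ Ico 1 (1 + X), ∏ p ∈ T, (if Q p x then (1 : ℝ) else 0)
      - X * ∏ p ∈ T, ((((range p).filter (Q p)).card : ℝ) / p)|
      ≤ ∏ p ∈ T, (((range p).filter (Q p)).card : ℝ) := by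
  have hpos : 0 < ∏ p ∈ T, p := Finset.prod_pos fun p hp => (hT p hp).pos
  have hper : Function.Periodic (fun x => ∀ p ∈ T, Q p x) (∏ p ∈ T, p) := by
    intro x
    simp only [eq_iff_iff]
    have : ∀ q ∈ T, (Q q (x + ∏ q ∈ T, q) ↔ Q q x) := by
      intro q hq
      obtain ⟨k, hk⟩ := Finset.dvd_prod_of_mem (fun q => q) hq
      rw [← hQ q (x + _), hk, Nat.add_mul_mod_self_left, hQ]
    exact ⟨fun h q hq => (this q hq).mp (h q hq), fun h q hq => (this q hq).mpr (h q hq)⟩
  have h1 := count_interval (fun x => ∀ p ∈ T, Q p x) hpos hper X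
  rw [count_primes Q hQ T hT] at h1
  have e1 : ∑ x ∈ Ico 1 (1 + X), ∏ p ∈ T, (if Q p x then (1 : ℝ) else 0)
      = (((Ico 1 (1 + X)).filter (fun x => ∀ p ∈ T, Q p x)).card : ℝ) := by
    rw [Finset.card_filter]
    push_cast
    apply Finset.sum_congr rfl
    intro x _
    rw [Finset.prod_ite_zero]
    simp
  rw [e1]
  push_cast at h1
  rw [Finset.prod_div_distrib]
  exact h1

end Pool.Agent.Lib.MP_0da313_nt
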