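import Mathlib

namespace Pool.Agent.Lib.MP_0da313_nt

open Polynomial

/-- The one-variable polynomial `g_n(x) = f(x, n - x)` in `ℤ[x]`. -/
noncomputable def lineRestrict (f : MvPolynomial (Fin 2) ℤ) (n : ℕ) : ℤ[X] :=
  MvPolynomial.aeval ![X, C (n : ℤ) - X] f

/-- The value `f(x, y)`. -/
noncomputable def val (f : MvPolynomial (Fin 2) ℤ) (x y : ℤ) : ℤ :=
  MvPolynomial.eval ![x, y] f

/-- Admissible family: there is `N₀` such that for every `n ≥ N₀` each `g_{k,n}` is irreducible in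
`ℤ[x]`, and no prime divides `∏_k g_{k,n}(x)` for every integer `x`. -/
def Admissible {m : ℕ} (f : Fin m → MvPolynomial (Fin 2) ℤ) : Prop :=
  ∃ N₀ : ℕ, ∀ n : ℕ, N₀ ≤ n →
    (∀ k, Irreducible (lineRestrict (f k) n)) ∧
    ∀ p : ℕ, p.Prime → ¬ ∀ x : ℤ, (p : ℤ) ∣ ∏ k, (lineRestrict (f k) n).eval x

end Pool.Agent.Lib.MP_0da313_nt
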