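import Mathlib
import Pool.Agent.Lib.MP_0da313_nt.Defs

open Finset Polynomial

namespace Pool.Agent.Lib.MP_0da313_nt

lemma eval_lineRestrict (f : MvPolynomial (Fin 2) ℤ) (n : ℕ) (x : ℤ) :
    (lineRestrict f n).eval x = val f x (n - x) := by
  unfold lineRestrict val
  induction f using MvPolynomial.induction_on with
  | C a => simp
  | add p q hp hq => rw [map_add, eval_add, hp, hq, map_add]
  | mul_X p i hp =>
    rw [map_mul, eval_mul, hp, map_mul]
    congr 1
    fin_cases i
    · simp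
    · simp

lemma natDegree_lineRestrict_le (f : MvPolynomial (Fin 2) ℤ) (n d : ℕ) (hf : f.totalDegree ≤ d) :
    (lineRestrict f n).natDegree ≤ d := by
  have := MvPolynomial.aeval_natDegree_le f hf (![X, C (n : ℤ) - X]) (n := 1) (by
    intro i
    fin_cases i
    · simp
    · simp only [Fin.mk_one, Matrix.cons_val_one, Matrix.cons_val_fin_one]
      refine (natDegree_sub_le _ _).trans ?_
      simp)
  rw [mul_one] at this
  exact this

lemma abs_val_le (f : MvPolynomial (Fin 2) ℤ) (d : ℕ) (hf : f.totalDegree ≤ d) :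
    ∃ C : ℕ, ∀ n : ℕ, 1 ≤ n → ∀ x y : ℤ, |x| ≤ n → |y| ≤ n → |val f x y| ≤ C * (n : ℤ) ^ d := by
  refine ⟨∑ s ∈ f.support, (f.coeff s).natAbs, ?_⟩
  intro n hn x y hx hy
  unfold val
  rw [MvPolynomial.eval_eq]
  refine (Finset.abs_sum_le_sum_abs _ _).trans ?_
  push_cast
  rw [Finset.sum_mul]
  apply Finset.sum_le_sum
  intro s hs
  rw [abs_mul]
  apply mul_le_mul (by simp) _ (abs_nonneg _) (abs_nonneg _)
  rw [Finset.abs_prod]
  have h1 : ∏ i ∈ s.support, |(![x, y] i) ^ s i| ≤ ∏ i ∈ s.support, (n : ℤ) ^ s i := by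
    apply Finset.prod_le_prod
    · intro i _; exact abs_nonneg _
    · intro i _
      rw [abs_pow]
      apply pow_le_pow_left₀ (abs_nonneg _)
      fin_cases i
      · exact hx
      · exact hy
  refine h1.trans ?_
  rw [Finset.prod_pow_eq_pow_sum]
  have hn' : (1 : ℤ) ≤ n := by exact_mod_cast hn
  apply pow_le_pow_right₀ hn'
  refine le_trans ?_ hf
  exact MvPolynomial.le_totalDegree hs

lemma periodic_dvd (G : ℤ[X]) (p x : ℕ) :
    ((p : ℤ) ∣ G.eval ((x % p : ℕ) : ℤ)) ↔ ((p : ℤ) ∣ G.eval (x : ℤ)) := by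
  have h1 := Polynomial.sub_dvd_eval_sub ((x % p : ℕ) : ℤ) (x : ℤ) G
  have h2 : (p : ℤ) ∣ ((x % p : ℕ) : ℤ) - (x : ℤ) := by
    have := Nat.div_add_mod x p
    refine ⟨-((x / p : ℕ) : ℤ), ?_⟩
    have h3 : (p : ℤ) * ((x / p : ℕ) : ℤ) + ((x % p : ℕ) : ℤ) = x := by exact_mod_cast this
    linear_combination h3
  have h3 := h2.trans h1
  constructor
  · intro h
    have := dvd_sub h h3
    simpa using this
  · intro h
    have := dvd_add h3 h
    simpa using this

lemma card_roots_mod_le (G : ℤ[X]) (p D : ℕ) (hp : p.Prime) (hD : G.natDegree ≤ D)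
    (hG : ¬ ∀ x : ℤ, (p : ℤ) ∣ G.eval x) :
    ((range p).filter (fun x : ℕ => (p : ℤ) ∣ G.eval (x : ℤ))).card ≤ D := by
  have hpf : Fact p.Prime := ⟨hp⟩
  set H : (ZMod p)[X] := G.map (Int.castRingHom (ZMod p)) with hH
  have heval : ∀ x : ℤ, H.eval (x : ZMod p) = ((G.eval x : ℤ) : ZMod p) := by
    intro x
    rw [hH, Polynomial.eval_intCast_map]
    simp
  have hne : H ≠ 0 := by
    intro h0
    apply hG
    intro x
    rw [← ZMod.intCast_zmod_eq_zero_iff_dvd, ← heval, h0, eval_zero]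
  have h1 : ((range p).filter (fun x : ℕ => (p : ℤ) ∣ G.eval (x : ℤ))).card ≤ H.roots.toFinset.card := by
    apply Finset.card_le_card_of_injOn (fun x : ℕ => (x : ZMod p))
    · intro x hx
      simp only [Finset.coe_filter, Finset.mem_range, Set.mem_ofPred_eq] at hx
      simp only [Finset.mem_coe, Multiset.mem_toFinset, mem_roots hne, IsRoot.def]
      have := heval (x : ℤ)
      rw [Int.cast_natCast] at this
      rw [this, ZMod.intCast_zmod_eq_zero_iff_dvd]
      exact hx.2
    · intro x hx y hy hxy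
      simp only [Finset.coe_filter, Finset.mem_range, Set.mem_ofPred_eq] at hx hy
      simp only [] at hxy
      rw [ZMod.natCast_eq_natCast_iff] at hxy
      exact Nat.ModEq.eq_of_lt_of_lt hxy hx.1 hy.1
  calc _ ≤ H.roots.toFinset.card := h1
    _ ≤ Multiset.card H.roots := Multiset.toFinset_card_le _
    _ ≤ H.natDegree := H.card_roots'
    _ ≤ G.natDegree := natDegree_map_le
    _ ≤ D := hD

lemma card_roots_mod_lt (G : ℤ[X]) (p : ℕ) (hp : p.Prime)
    (hG : ¬ ∀ x : ℤ, (p : ℤ) ∣ G.eval x) :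
    ((range p).filter (fun x : ℕ => (p : ℤ) ∣ G.eval (x : ℤ))).card < p := by
  by_contra h
  push Not at h
  apply hG
  have h1 : (range p).filter (fun x : ℕ => (p : ℤ) ∣ G.eval (x : ℤ)) = range p := by
    apply Finset.eq_of_subset_of_card_le (Finset.filter_subset _ _)
    rw [Finset.card_range]; exact h
  intro x
  have hp0 : (0 : ℤ) < p := by exact_mod_cast hp.pos
  have h2 : (x % p).toNat ∈ range p := by
    rw [Finset.mem_range]
    have := Int.emod_lt_of_pos x hp0
    have h0 := Int.emod_nonneg x hp0.ne'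
    omega
  rw [← h1, Finset.mem_filter] at h2
  have h3 : (((x % p).toNat : ℕ) : ℤ) = x % p := Int.toNat_of_nonneg (Int.emod_nonneg x hp0.ne')
  rw [h3] at h2
  have h4 := Polynomial.sub_dvd_eval_sub x (x % p) G
  have h5 : (p : ℤ) ∣ x - x % p := Int.dvd_self_sub_emod
  have h6 := dvd_add (h5.trans h4) h2.2
  simpa using h6

end Pool.Agent.Lib.MP_0da313_nt
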