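import Mathlib

open Finset

namespace Pool.Agent.Lib.MP_0da313_nt

/-- primes in `(2^i, 2^(i+1)]`. -/
def dyad (i : ℕ) : Finset ℕ := (Ioc (2 ^ i) (2 ^ (i + 1))).filter Nat.Prime

lemma prod_dyad_le (i : ℕ) : ∏ p ∈ dyad i, p ≤ 4 ^ (2 ^ i) := by
  have hdvd : ∏ p ∈ dyad i, p ∣ Nat.centralBinom (2 ^ i) := by
    apply Finset.prod_primes_dvd
    · intro p hp
      exact (Finset.mem_filter.mp hp).2.prime
    · intro p hp
      unfold dyad at hp
      rw [Finset.mem_filter, Finset.mem_Ioc] at hp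
      obtain ⟨⟨h1, h2⟩, hp⟩ := hp
      have h3 : p ∣ (2 * 2 ^ i).factorial := by
        rw [hp.dvd_factorial, ← pow_succ']; exact h2
      have h4 : Nat.centralBinom (2 ^ i) * (2 ^ i).factorial * (2 ^ i).factorial
          = (2 * 2 ^ i).factorial := by
        have := Nat.choose_mul_factorial_mul_factorial (n := 2 * 2 ^ i) (k := 2 ^ i) (by omega)
        rw [show 2 * 2 ^ i - 2 ^ i = 2 ^ i by omega] at this
        exact this
      rw [← h4, hp.dvd_mul, hp.dvd_mul] at h3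
      rcases h3 with (h3 | h3) | h3
      · exact h3
      · rw [hp.dvd_factorial] at h3; omega
      · rw [hp.dvd_factorial] at h3; omega
  have hpos : 0 < Nat.centralBinom (2 ^ i) := Nat.centralBinom_pos _
  refine (Nat.le_of_dvd hpos hdvd).trans ?_
  rw [Nat.centralBinom_eq_two_mul_choose]
  refine (Nat.choose_le_two_pow _ _).trans ?_
  rw [show (4 : ℕ) = 2 ^ 2 by norm_num, ← pow_mul]

lemma card_dyad_le (i : ℕ) : (dyad i).card * i ≤ 2 * 2 ^ i := by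
  have h1 : (2 ^ i) ^ (dyad i).card ≤ ∏ p ∈ dyad i, p := by
    rw [← Finset.prod_const]
    apply Finset.prod_le_prod'
    intro p hp
    unfold dyad at hp
    rw [Finset.mem_filter, Finset.mem_Ioc] at hp
    exact hp.1.1.le
  have h2 := h1.trans (prod_dyad_le i)
  rw [← pow_mul, show (4 : ℕ) = 2 ^ 2 by norm_num, ← pow_mul] at h2
  have h3 := (Nat.pow_le_pow_iff_right (by norm_num : 1 < 2)).mp h2
  rw [mul_comm]
  exact h3

lemma sum_dyad_le {i : ℕ} (hi : 0 < i) : ∑ p ∈ dyad i, (1 : ℝ) / p ≤ 2 / i := by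
  have h1 : ∑ p ∈ dyad i, (1 : ℝ) / p ≤ ∑ p ∈ dyad i, (1 : ℝ) / (2 ^ i : ℝ) := by
    apply Finset.sum_le_sum
    intro p hp
    unfold dyad at hp
    rw [Finset.mem_filter, Finset.mem_Ioc] at hp
    apply one_div_le_one_div_of_le (by positivity)
    exact_mod_cast hp.1.1.le
  refine h1.trans ?_
  rw [Finset.sum_const, nsmul_eq_mul]
  have h2 : ((dyad i).card : ℝ) * i ≤ 2 * 2 ^ i := by exact_mod_cast card_dyad_le i
  have hi' : (0 : ℝ) < i := by exact_mod_cast hi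
  have h3 : (0 : ℝ) < 2 ^ i := by positivity
  rw [mul_one_div, div_le_div_iff₀ h3 hi']
  exact h2

/-- primes in `(2^(2^t), 2^(2^(t+1))]`. -/
def blk (t : ℕ) : Finset ℕ := (Ioc (2 ^ (2 ^ t)) (2 ^ (2 ^ (t + 1)))).filter Nat.Prime

lemma mem_blk {t p : ℕ} : p ∈ blk t ↔ (2 ^ (2 ^ t) < p ∧ p ≤ 2 ^ (2 ^ (t + 1))) ∧ p.Prime := by
  unfold blk
  rw [Finset.mem_filter, Finset.mem_Ioc]

lemma sum_biUnion_le_aux (s : Finset ℕ) (t : ℕ → Finset ℕ) (f : ℕ → ℝ) (hf : ∀ p, 0 ≤ f p) :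
    ∑ p ∈ s.biUnion t, f p ≤ ∑ i ∈ s, ∑ p ∈ t i, f p := by
  induction s using Finset.induction_on with
  | empty => simp
  | insert a s ha ih =>
    rw [Finset.biUnion_insert, Finset.sum_insert ha]
    have h1 := Finset.sum_union_inter (s₁ := t a) (s₂ := s.biUnion t) (f := f)
    have h2 : 0 ≤ ∑ p ∈ t a ∩ s.biUnion t, f p := Finset.sum_nonneg fun p _ => hf p
    linarith

lemma blk_subset (t : ℕ) : blk t ⊆ (Ico (2 ^ t) (2 ^ (t + 1))).biUnion dyad := by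
  intro p hp
  rw [mem_blk] at hp
  obtain ⟨⟨h1, h2⟩, hp⟩ := hp
  rw [Finset.mem_biUnion]
  -- the index is `Nat.log 2 (p-1)`
  have hp1 : p - 1 ≠ 0 := by have := hp.two_le; omega
  refine ⟨Nat.log 2 (p - 1), ?_, ?_⟩
  · rw [Finset.mem_Ico]
    constructor
    · apply Nat.le_log_of_pow_le (by norm_num)
      omega
    · apply Nat.log_lt_of_lt_pow hp1
      omega
  · unfold dyad
    rw [Finset.mem_filter, Finset.mem_Ioc]
    refine ⟨⟨?_, ?_⟩, hp⟩
    · have := Nat.pow_log_le_self 2 hp1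
      omega
    · have := Nat.lt_pow_succ_log_self (by norm_num : 1 < 2) (p - 1)
      rw [← Nat.succ_eq_add_one]
      have h5 := hp.two_le
      omega

lemma sum_blk_le (t : ℕ) : ∑ p ∈ blk t, (1 : ℝ) / p ≤ 2 := by
  have h1 : ∑ p ∈ blk t, (1 : ℝ) / p ≤ ∑ p ∈ (Ico (2 ^ t) (2 ^ (t + 1))).biUnion dyad, (1 : ℝ) / p := by
    apply Finset.sum_le_sum_of_subset_of_nonneg (blk_subset t)
    intro p _ _
    positivity
  have h2 : ∑ p ∈ (Ico (2 ^ t) (2 ^ (t + 1))).biUnion dyad, (1 : ℝ) / p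
      ≤ ∑ i ∈ Ico (2 ^ t) (2 ^ (t + 1)), ∑ p ∈ dyad i, (1 : ℝ) / p := by
    apply sum_biUnion_le_aux
    intro i
    positivity
  have h3 : ∑ i ∈ Ico (2 ^ t) (2 ^ (t + 1)), ∑ p ∈ dyad i, (1 : ℝ) / p
      ≤ ∑ i ∈ Ico (2 ^ t) (2 ^ (t + 1)), (2 : ℝ) / (2 ^ t : ℝ) := by
    apply Finset.sum_le_sum
    intro i hi
    rw [Finset.mem_Ico] at hi
    have hi0 : 0 < i := lt_of_lt_of_le (by positivity) hi.1
    refine (sum_dyad_le hi0).trans ?_
    apply div_le_div_of_nonneg_left (by norm_num) (by positivity)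
    exact_mod_cast hi.1
  refine h1.trans (h2.trans (h3.trans ?_))
  rw [Finset.sum_const, Nat.card_Ico, nsmul_eq_mul, pow_succ, show 2 ^ t * 2 - 2 ^ t = 2 ^ t by omega]
  push_cast
  rw [mul_div_assoc', mul_comm, mul_div_assoc, div_self (by positivity)]
  norm_num

lemma card_blk_le (t : ℕ) : (blk t).card + 1 ≤ 2 ^ (2 ^ (t + 1)) := by
  have h1 : blk t ⊆ Ioc 1 (2 ^ (2 ^ (t + 1))) := by
    intro p hp
    rw [mem_blk] at hp
    rw [Finset.mem_Ioc]
    exact ⟨hp.2.one_lt, hp.1.2⟩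
  have h2 := Finset.card_le_card h1
  rw [Nat.card_Ioc] at h2
  have : 0 < 2 ^ (2 ^ (t + 1)) := by positivity
  omega

end Pool.Agent.Lib.MP_0da313_nt
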