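import Mathlib

/-!
Combinatorial part of the Brun-Hooley lower bound sieve.
-/

open Finset

namespace Pool.Agent.Lib.MP_0da313_nt

/-- elementary symmetric sum of degree `k` of `ρ p`, `p ∈ B`. -/
noncomputable def E (ρ : ℕ → ℝ) (B : Finset ℕ) (k : ℕ) : ℝ :=
  ∑ T ∈ B.powersetCard k, ∏ p ∈ T, ρ p

/-- truncated inclusion-exclusion sum. -/
noncomputable def U (ρ : ℕ → ℝ) (B : Finset ℕ) (b : ℕ) : ℝ :=
  ∑ i ∈ range (b + 1), (-1) ^ i * E ρ B i

/-- sifted density. -/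
noncomputable def W (ρ : ℕ → ℝ) (B : Finset ℕ) : ℝ := ∏ p ∈ B, (1 - ρ p)

lemma E_zero (ρ : ℕ → ℝ) (B : Finset ℕ) : E ρ B 0 = 1 := by
  simp [E]

lemma E_empty_succ (ρ : ℕ → ℝ) (k : ℕ) : E ρ ∅ (k + 1) = 0 := by
  unfold E
  rw [Finset.powersetCard_eq_empty.mpr (by simp), Finset.sum_empty]

lemma U_zero (ρ : ℕ → ℝ) (B : Finset ℕ) : U ρ B 0 = 1 := by
  simp [U, E_zero]

lemma E_insert (ρ : ℕ → ℝ) {B : Finset ℕ} {p : ℕ} (hp : p ∉ B) (k : ℕ) :
    E ρ (insert p B) (k + 1) = E ρ B (k + 1) + ρ p * E ρ B k := by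
  unfold E
  rw [Finset.powersetCard_succ_insert hp, Finset.sum_union]
  · congr 1
    rw [Finset.sum_image, Finset.mul_sum]
    · apply Finset.sum_congr rfl
      intro T hT
      rw [Finset.mem_powersetCard] at hT
      rw [Finset.prod_insert (fun h => hp (hT.1 h))]
    · intro T hT T' hT' h
      simp only [Finset.mem_coe, Finset.mem_powersetCard] at hT hT'
      have h1 : (insert p T).erase p = (insert p T').erase p := by rw [h]
      rwa [Finset.erase_insert (fun h => hp (hT.1 h)), Finset.erase_insert (fun h => hp (hT'.1 h))] at h1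
  · rw [Finset.disjoint_left]
    intro T hT hT'
    rw [Finset.mem_powersetCard] at hT
    rw [Finset.mem_image] at hT'
    obtain ⟨T', _, rfl⟩ := hT'
    exact hp (hT.1 (Finset.mem_insert_self _ _))

lemma U_insert (ρ : ℕ → ℝ) {B : Finset ℕ} {p : ℕ} (hp : p ∉ B) (b : ℕ) :
    U ρ (insert p B) (b + 1) = U ρ B (b + 1) - ρ p * U ρ B b := by
  unfold U
  rw [Finset.sum_range_succ' _ (b + 1), Finset.sum_range_succ' _ (b + 1)]
  simp only [E_insert ρ hp, E_zero, mul_add, Finset.sum_add_distrib, Finset.mul_sum]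
  have : ∑ x ∈ range (b + 1), (-1 : ℝ) ^ (x + 1) * (ρ p * E ρ B x)
      = - ∑ x ∈ range (b + 1), ρ p * ((-1) ^ x * E ρ B x) := by
    rw [← Finset.sum_neg_distrib]
    apply Finset.sum_congr rfl
    intro x _
    ring
  rw [this]
  ring

lemma E_nonneg {ρ : ℕ → ℝ} {B : Finset ℕ} (h : ∀ p ∈ B, 0 ≤ ρ p) (k : ℕ) : 0 ≤ E ρ B k := by
  unfold E
  apply Finset.sum_nonneg
  intro T hT
  rw [Finset.mem_powersetCard] at hT
  exact Finset.prod_nonneg fun p hp => h p (hT.1 hp)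

lemma W_nonneg {ρ : ℕ → ℝ} {B : Finset ℕ} (h : ∀ p ∈ B, ρ p ≤ 1) : 0 ≤ W ρ B :=
  Finset.prod_nonneg fun p hp => by linarith [h p hp]

lemma W_le_one {ρ : ℕ → ℝ} {B : Finset ℕ} (h : ∀ p ∈ B, ρ p ≤ 1) (h0 : ∀ p ∈ B, 0 ≤ ρ p) :
    W ρ B ≤ 1 :=
  Finset.prod_le_one (fun p hp => by linarith [h p hp]) (fun p hp => by linarith [h0 p hp])

/-- Bonferroni inequalities. -/
lemma bonferroni (ρ : ℕ → ℝ) (B : Finset ℕ) (h0 : ∀ p ∈ B, 0 ≤ ρ p) (h1 : ∀ p ∈ B, ρ p ≤ 1)
    (b : ℕ) : 0 ≤ (-1) ^ b * (U ρ B b - W ρ B) := by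
  induction B using Finset.induction_on generalizing b with
  | empty =>
    have : U ρ ∅ b = 1 := by
      unfold U
      rw [Finset.sum_range_succ']
      simp [E_empty_succ, E_zero]
    rw [this]
    simp [W]
  | insert p B hp ih =>
    have ih := ih (fun q hq => h0 q (Finset.mem_insert_of_mem hq))
      (fun q hq => h1 q (Finset.mem_insert_of_mem hq))
    have hp0 := h0 p (Finset.mem_insert_self _ _)
    have hp1 := h1 p (Finset.mem_insert_self _ _)
    rcases b with _ | b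
    · rw [U_zero]
      have := W_le_one h1 h0
      simp only [pow_zero, one_mul]
      linarith
    · rw [U_insert ρ hp b]
      have hW : W ρ (insert p B) = (1 - ρ p) * W ρ B := by
        unfold W
        rw [Finset.prod_insert hp]
      rw [hW]
      have i1 := ih (b + 1)
      have i2 := mul_nonneg hp0 (ih b)
      have e : (-1 : ℝ) ^ (b + 1) * (U ρ B (b + 1) - ρ p * U ρ B b - (1 - ρ p) * W ρ B)
          = (-1) ^ (b + 1) * (U ρ B (b + 1) - W ρ B) + ρ p * ((-1) ^ b * (U ρ B b - W ρ B)) := by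
        ring
      rw [e]
      linarith

lemma W_le_U (ρ : ℕ → ℝ) (B : Finset ℕ) (h0 : ∀ p ∈ B, 0 ≤ ρ p) (h1 : ∀ p ∈ B, ρ p ≤ 1)
    {b : ℕ} (hb : Even b) : W ρ B ≤ U ρ B b := by
  have := bonferroni ρ B h0 h1 b
  rw [hb.neg_one_pow, one_mul] at this
  linarith

lemma U_le_W_add_E (ρ : ℕ → ℝ) (B : Finset ℕ) (h0 : ∀ p ∈ B, 0 ≤ ρ p) (h1 : ∀ p ∈ B, ρ p ≤ 1)
    {b : ℕ} (hb : Even b) : U ρ B b ≤ W ρ B + E ρ B (b + 1) := by
  have := bonferroni ρ B h0 h1 (b + 1)
  have e : U ρ B (b + 1) = U ρ B b - E ρ B (b + 1) := by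
    unfold U
    rw [Finset.sum_range_succ _ (b + 1), pow_succ, hb.neg_one_pow]
    ring
  rw [e, pow_succ, hb.neg_one_pow] at this
  linarith

lemma E_le (ρ : ℕ → ℝ) (B : Finset ℕ) (h0 : ∀ p ∈ B, 0 ≤ ρ p) (k : ℕ) :
    (k.factorial : ℝ) * E ρ B k ≤ (∑ p ∈ B, ρ p) ^ k := by
  induction B using Finset.induction_on generalizing k with
  | empty =>
    rcases k with _ | k
    · simp [E_zero]
    · simp [E_empty_succ]
  | insert p B hp ih =>
    have ih := ih (fun q hq => h0 q (Finset.mem_insert_of_mem hq))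
    have hp0 := h0 p (Finset.mem_insert_self _ _)
    have hS : 0 ≤ ∑ p ∈ B, ρ p := Finset.sum_nonneg fun q hq => h0 q (Finset.mem_insert_of_mem hq)
    rcases k with _ | k
    · simp [E_zero]
    · rw [E_insert ρ hp, Finset.sum_insert hp]
      set S := ∑ p ∈ B, ρ p with hSdef
      have i1 := ih (k + 1)
      have i2 := ih k
      have key : ∀ k : ℕ, S ^ (k + 1) + (k + 1) * S ^ k * ρ p ≤ (ρ p + S) ^ (k + 1) := by
        intro k
        induction k with
        | zero => simp; linarith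
        | succ k ihk =>
          have h3 : (ρ p + S) ^ (k + 1 + 1) = (ρ p + S) * (ρ p + S) ^ (k + 1) := by ring
          rw [h3]
          have h4 := mul_le_mul_of_nonneg_left ihk (add_nonneg hp0 hS)
          have h5 : 0 ≤ ρ p * ((k + 1) * S ^ k * ρ p) := by positivity
          push_cast
          have h6 : (ρ p + S) * (S ^ (k + 1) + (k + 1) * S ^ k * ρ p) =
            S ^ (k + 1 + 1) + (k + 1 + 1) * S ^ (k + 1) * ρ p + ρ p * ((k + 1) * S ^ k * ρ p) := by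
            ring
          linarith
      have h7 := key k
      have h8 : ((k + 1).factorial : ℝ) * (E ρ B (k + 1) + ρ p * E ρ B k)
          = ((k + 1).factorial : ℝ) * E ρ B (k + 1) + (k + 1) * ρ p * ((k.factorial : ℝ) * E ρ B k) := by
        rw [Nat.factorial_succ]; push_cast; ring
      rw [h8]
      have h9 : (k + 1) * ρ p * ((k.factorial : ℝ) * E ρ B k) ≤ (k + 1) * ρ p * S ^ k :=
        mul_le_mul_of_nonneg_left i2 (by positivity)
      nlinarith

/-- `∑_{i ≤ b} E_i ≤ (1 + S)^b`. -/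
lemma sum_E_le (ρ : ℕ → ℝ) (B : Finset ℕ) (h0 : ∀ p ∈ B, 0 ≤ ρ p) (b : ℕ) :
    ∑ i ∈ range (b + 1), E ρ B i ≤ (1 + ∑ p ∈ B, ρ p) ^ b := by
  have hS : 0 ≤ ∑ p ∈ B, ρ p := Finset.sum_nonneg h0
  rw [add_comm 1, add_pow]
  apply Finset.sum_le_sum
  intro i hi
  rw [Finset.mem_range] at hi
  have h1 := E_le ρ B h0 i
  have h2 := E_nonneg h0 i
  have h3 : (1 : ℝ) ≤ (i.factorial : ℝ) := by exact_mod_cast Nat.factorial_pos i
  have h4 : (1 : ℝ) ≤ (b.choose i : ℝ) := by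
    exact_mod_cast Nat.choose_pos (by omega)
  rw [one_pow, mul_one]
  have h5 : 0 ≤ (∑ p ∈ B, ρ p) ^ i := pow_nonneg hS i
  nlinarith

/-- `F` is a multilinear polynomial in the `ρ p`, `p ∈ P`, with weighted norm at most `M`. -/
def Rep (P : Finset ℕ) (w : ℕ → ℝ) (M : ℝ) (F : (ℕ → ℝ) → ℝ) : Prop :=
  ∃ c : Finset ℕ → ℝ, (∀ ρ, F ρ = ∑ T ∈ P.powerset, c T * ∏ p ∈ T, ρ p) ∧
    ∑ T ∈ P.powerset, |c T| * ∏ p ∈ T, w p ≤ M

lemma Rep.mono {P : Finset ℕ} {w : ℕ → ℝ} {M M' : ℝ} {F : (ℕ → ℝ) → ℝ} (h : Rep P w M F)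
    (hM : M ≤ M') : Rep P w M' F := by
  obtain ⟨c, h1, h2⟩ := h
  exact ⟨c, h1, h2.trans hM⟩

lemma Rep.sub {P : Finset ℕ} {w : ℕ → ℝ} (hw : ∀ p ∈ P, 0 ≤ w p) {M M' : ℝ}
    {F F' : (ℕ → ℝ) → ℝ} (h : Rep P w M F) (h' : Rep P w M' F') :
    Rep P w (M + M') (fun ρ => F ρ - F' ρ) := by
  obtain ⟨c, h1, h2⟩ := h
  obtain ⟨c', h1', h2'⟩ := h'
  refine ⟨fun T => c T - c' T, ?_, ?_⟩
  · intro ρ
    simp only []
    rw [h1, h1', ← Finset.sum_sub_distrib]
    apply Finset.sum_congr rfl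
    intro T _
    ring
  · refine le_trans ?_ (add_le_add h2 h2')
    rw [← Finset.sum_add_distrib]
    apply Finset.sum_le_sum
    intro T hT
    rw [Finset.mem_powerset] at hT
    have h3 : 0 ≤ ∏ p ∈ T, w p := Finset.prod_nonneg fun p hp => hw p (hT hp)
    rw [← add_mul]
    exact mul_le_mul_of_nonneg_right (abs_sub _ _) h3

/-- sums over the powerset of a disjoint union. -/
lemma sum_powerset_union {P Q : Finset ℕ} (hd : Disjoint P Q) (f : Finset ℕ → Finset ℕ → ℝ) :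
    ∑ T ∈ (P ∪ Q).powerset, f (T ∩ P) (T ∩ Q)
      = ∑ T ∈ P.powerset, ∑ T' ∈ Q.powerset, f T T' := by
  rw [← Finset.sum_product']
  apply Finset.sum_nbij' (fun T => (T ∩ P, T ∩ Q)) (fun T => T.1 ∪ T.2)
  · intro T _
    simp only [Finset.mem_product, Finset.mem_powerset]
    exact ⟨Finset.inter_subset_right, Finset.inter_subset_right⟩
  · intro T hT
    simp only [Finset.mem_product, Finset.mem_powerset] at hT ⊢
    exact Finset.union_subset_union hT.1 hT.2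
  · intro T hT
    rw [Finset.mem_powerset] at hT
    rw [← Finset.inter_union_distrib_left, Finset.inter_eq_left.mpr hT]
  · intro T hT
    simp only [Finset.mem_product, Finset.mem_powerset] at hT
    have h1 : (T.1 ∪ T.2) ∩ P = T.1 := by
      rw [Finset.union_inter_distrib_right, Finset.inter_eq_left.mpr hT.1]
      have : T.2 ∩ P = ∅ := by
        rw [← Finset.disjoint_iff_inter_eq_empty]
        exact (hd.mono_right hT.2).symm
      rw [this, Finset.union_empty]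
    have h2 : (T.1 ∪ T.2) ∩ Q = T.2 := by
      rw [Finset.union_inter_distrib_right, Finset.inter_eq_left.mpr hT.2]
      have : T.1 ∩ Q = ∅ := by
        rw [← Finset.disjoint_iff_inter_eq_empty]
        exact hd.mono_left hT.1
      rw [this, Finset.empty_union]
    rw [h1, h2]
  · intro T _
    rfl

lemma prod_union_inter {P Q T : Finset ℕ} (hd : Disjoint P Q) (hT : T ⊆ P ∪ Q) (ρ : ℕ → ℝ) :
    ∏ p ∈ T, ρ p = (∏ p ∈ T ∩ P, ρ p) * ∏ p ∈ T ∩ Q, ρ p := by
  rw [← Finset.prod_union]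
  · rw [← Finset.inter_union_distrib_left, Finset.inter_eq_left.mpr hT]
  · exact hd.mono Finset.inter_subset_right Finset.inter_subset_right

lemma Rep.mul {P Q : Finset ℕ} (hd : Disjoint P Q) {w : ℕ → ℝ} (hwP : ∀ p ∈ P, 0 ≤ w p)
    (hwQ : ∀ p ∈ Q, 0 ≤ w p) {M M' : ℝ} {F F' : (ℕ → ℝ) → ℝ} (h : Rep P w M F)
    (h' : Rep Q w M' F') : Rep (P ∪ Q) w (M * M') (fun ρ => F ρ * F' ρ) := by
  obtain ⟨c, h1, h2⟩ := h
  obtain ⟨c', h1', h2'⟩ := h'
  refine ⟨fun T => c (T ∩ P) * c' (T ∩ Q), ?_, ?_⟩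
  · intro ρ
    have e1 : ∀ T ∈ (P ∪ Q).powerset, c (T ∩ P) * c' (T ∩ Q) * ∏ p ∈ T, ρ p
        = (c (T ∩ P) * ∏ p ∈ T ∩ P, ρ p) * (c' (T ∩ Q) * ∏ p ∈ T ∩ Q, ρ p) := by
      intro T hT
      rw [prod_union_inter hd (Finset.mem_powerset.mp hT)]
      ring
    beta_reduce
    rw [Finset.sum_congr rfl e1,
      sum_powerset_union hd (fun A B => (c A * ∏ p ∈ A, ρ p) * (c' B * ∏ p ∈ B, ρ p)),
      h1, h1', Finset.sum_mul_sum]
  · have e1 : ∀ T ∈ (P ∪ Q).powerset, |c (T ∩ P) * c' (T ∩ Q)| * ∏ p ∈ T, w p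
        = (|c (T ∩ P)| * ∏ p ∈ T ∩ P, w p) * (|c' (T ∩ Q)| * ∏ p ∈ T ∩ Q, w p) := by
      intro T hT
      rw [prod_union_inter hd (Finset.mem_powerset.mp hT), abs_mul]
      ring
    rw [Finset.sum_congr rfl e1,
      sum_powerset_union hd (fun A B => (|c A| * ∏ p ∈ A, w p) * (|c' B| * ∏ p ∈ B, w p)),
      ← Finset.sum_mul_sum]
    have n1 : 0 ≤ ∑ T ∈ P.powerset, |c T| * ∏ p ∈ T, w p := by
      apply Finset.sum_nonneg
      intro T hT
      rw [Finset.mem_powerset] at hT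
      exact mul_nonneg (abs_nonneg _) (Finset.prod_nonneg fun p hp => hwP p (hT hp))
    have n2 : 0 ≤ ∑ T ∈ Q.powerset, |c' T| * ∏ p ∈ T, w p := by
      apply Finset.sum_nonneg
      intro T hT
      rw [Finset.mem_powerset] at hT
      exact mul_nonneg (abs_nonneg _) (Finset.prod_nonneg fun p hp => hwQ p (hT hp))
    exact mul_le_mul h2 h2' n2 (n1.trans h2)

lemma rep_E (B : Finset ℕ) {w : ℕ → ℝ} (hw : ∀ p ∈ B, 0 ≤ w p) (k : ℕ) :
    Rep B w ((∑ p ∈ B, w p) ^ k) (fun ρ => E ρ B k) := by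
  refine ⟨fun T => if T.card = k then 1 else 0, ?_, ?_⟩
  · intro ρ
    simp only [ite_mul, one_mul, zero_mul]
    rw [← Finset.sum_filter]
    unfold E
    rw [Finset.powersetCard_eq_filter]
  · have e1 : ∀ T ∈ B.powerset, |(if T.card = k then (1 : ℝ) else 0)| * ∏ p ∈ T, w p
        = if T.card = k then ∏ p ∈ T, w p else 0 := by
      intro T _
      split_ifs <;> simp
    rw [Finset.sum_congr rfl e1, ← Finset.sum_filter, ← Finset.powersetCard_eq_filter]
    have h1 := E_le w B hw k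
    have h2 := E_nonneg hw k
    have h3 : (1 : ℝ) ≤ (k.factorial : ℝ) := by exact_mod_cast Nat.factorial_pos k
    unfold E at h1 h2
    nlinarith

lemma rep_U (B : Finset ℕ) {w : ℕ → ℝ} (hw : ∀ p ∈ B, 0 ≤ w p) (b : ℕ) :
    Rep B w ((1 + ∑ p ∈ B, w p) ^ b) (fun ρ => U ρ B b) := by
  refine ⟨fun T => if T.card < b + 1 then (-1) ^ T.card else 0, ?_, ?_⟩
  · intro ρ
    simp only [ite_mul, zero_mul]
    unfold U E
    have e1 : ∑ T ∈ B.powerset, (if T.card < b + 1 then (-1) ^ T.card * ∏ p ∈ T, ρ p else 0)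
        = ∑ T ∈ B.powerset, ∑ i ∈ range (b + 1),
          (if T.card = i then (-1) ^ i * ∏ p ∈ T, ρ p else 0) := by
      apply Finset.sum_congr rfl
      intro T _
      rw [Finset.sum_ite_eq]
      simp only [Finset.mem_range]
    rw [e1, Finset.sum_comm]
    apply Finset.sum_congr rfl
    intro i _
    rw [← Finset.sum_filter, Finset.powersetCard_eq_filter, Finset.mul_sum]
  · refine le_trans ?_ (sum_E_le w B hw b)
    unfold E
    have e1 : ∑ T ∈ B.powerset, |(if T.card < b + 1 then (-1 : ℝ) ^ T.card else 0)| * ∏ p ∈ T, w p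
        = ∑ T ∈ B.powerset, ∑ i ∈ range (b + 1),
          (if T.card = i then ∏ p ∈ T, w p else 0) := by
      apply Finset.sum_congr rfl
      intro T _
      rw [Finset.sum_ite_eq]
      simp only [Finset.mem_range]
      split_ifs <;> simp
    rw [e1, Finset.sum_comm]
    apply le_of_eq
    apply Finset.sum_congr rfl
    intro i _
    rw [← Finset.sum_filter, Finset.powersetCard_eq_filter]

lemma rep_W (B : Finset ℕ) (w : ℕ → ℝ) :
    Rep B w (∏ p ∈ B, (1 + w p)) (fun ρ => W ρ B) := by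
  refine ⟨fun T => (-1) ^ T.card, ?_, ?_⟩
  · intro ρ
    unfold W
    have : ∀ p ∈ B, (1 - ρ p) = 1 + (-ρ p) := fun p _ => by ring
    beta_reduce
    rw [Finset.prod_congr rfl this, Finset.prod_one_add]
    apply Finset.sum_congr rfl
    intro T _
    rw [Finset.prod_neg]
  · rw [Finset.prod_one_add]
    apply Finset.sum_le_sum
    intro T _
    simp

end Pool.Agent.Lib.MP_0da313_nt
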