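import Mathlib
import Pool.Agent.Lib.MP_0da313_nt.Combi

open Finset

namespace Pool.Agent.Lib.MP_0da313_nt

section
variable (B0 : Finset ℕ) (B : ℕ → Finset ℕ) (b : ℕ → ℕ)

/-- union of the blocks. -/
def PP : ℕ → Finset ℕ
  | 0 => B0
  | (i + 1) => PP i ∪ B i

/-- product of the truncated upper sums. -/
noncomputable def YY (ρ : ℕ → ℝ) : ℕ → ℝ
  | 0 => W ρ B0
  | (i + 1) => YY ρ i * U ρ (B i) (b i)

/-- the Brun-Hooley lower bound function. -/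
noncomputable def FF (ρ : ℕ → ℝ) : ℕ → ℝ
  | 0 => W ρ B0
  | (i + 1) => FF ρ i * U ρ (B i) (b i) - YY B0 B b ρ i * E ρ (B i) (b i + 1)

variable {B0 B b}

lemma mem_PP_succ {n p : ℕ} : p ∈ PP B0 B (n + 1) ↔ p ∈ PP B0 B n ∨ p ∈ B n := by
  simp [PP]

lemma W_union {ρ : ℕ → ℝ} {P Q : Finset ℕ} (h : Disjoint P Q) :
    W ρ (P ∪ Q) = W ρ P * W ρ Q := by
  unfold W
  rw [Finset.prod_union h]

/-- pointwise bounds. -/
lemma pointwise (hb : ∀ i, Even (b i)) (n : ℕ) (hd : ∀ i < n, Disjoint (PP B0 B i) (B i))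
    (ρ : ℕ → ℝ) (h0 : ∀ p ∈ PP B0 B n, 0 ≤ ρ p) (h1 : ∀ p ∈ PP B0 B n, ρ p ≤ 1) :
    W ρ (PP B0 B n) ≤ YY B0 B b ρ n ∧ FF B0 B b ρ n ≤ W ρ (PP B0 B n) := by
  induction n with
  | zero => exact ⟨le_rfl, le_rfl⟩
  | succ n ih =>
    obtain ⟨i1, i2⟩ := ih (fun i hi => hd i (by omega))
      (fun p hp => h0 p (mem_PP_succ.mpr (Or.inl hp))) (fun p hp => h1 p (mem_PP_succ.mpr (Or.inl hp)))
    have g0 : ∀ p ∈ B n, 0 ≤ ρ p := fun p hp => h0 p (mem_PP_succ.mpr (Or.inr hp))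
    have g1 : ∀ p ∈ B n, ρ p ≤ 1 := fun p hp => h1 p (mem_PP_succ.mpr (Or.inr hp))
    have hW : W ρ (PP B0 B (n + 1)) = W ρ (PP B0 B n) * W ρ (B n) := W_union (hd n (by omega))
    have u1 := W_le_U ρ (B n) g0 g1 (hb n)
    have u2 := U_le_W_add_E ρ (B n) g0 g1 (hb n)
    have e0 := E_nonneg g0 (b n + 1)
    have w0 : 0 ≤ W ρ (B n) := W_nonneg g1
    have w1 : 0 ≤ W ρ (PP B0 B n) := W_nonneg (fun p hp => h1 p (mem_PP_succ.mpr (Or.inl hp)))
    constructor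
    · rw [hW]
      show _ ≤ YY B0 B b ρ n * U ρ (B n) (b n)
      exact mul_le_mul i1 u1 w0 (w1.trans i1)
    · rw [hW]
      show FF B0 B b ρ n * U ρ (B n) (b n) - YY B0 B b ρ n * E ρ (B n) (b n + 1) ≤ _
      have a1 : FF B0 B b ρ n * U ρ (B n) (b n) ≤ W ρ (PP B0 B n) * U ρ (B n) (b n) :=
        mul_le_mul_of_nonneg_right i2 (w0.trans u1)
      have a2 : W ρ (PP B0 B n) * U ρ (B n) (b n) ≤
          W ρ (PP B0 B n) * (W ρ (B n) + E ρ (B n) (b n + 1)) :=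
        mul_le_mul_of_nonneg_left u2 w1
      have a3 : W ρ (PP B0 B n) * E ρ (B n) (b n + 1) ≤ YY B0 B b ρ n * E ρ (B n) (b n + 1) :=
        mul_le_mul_of_nonneg_right i1 e0
      nlinarith

/-- lower bound for `FF` in terms of `YY`. -/
lemma FF_lower (hb : ∀ i, Even (b i)) (n : ℕ) (hd : ∀ i < n, Disjoint (PP B0 B i) (B i))
    (ρ : ℕ → ℝ) (h0 : ∀ p ∈ PP B0 B n, 0 ≤ ρ p) (h1 : ∀ p ∈ PP B0 B n, ρ p < 1) :
    YY B0 B b ρ n * (1 - ∑ i ∈ range n, E ρ (B i) (b i + 1) / W ρ (B i)) ≤ FF B0 B b ρ n := by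
  induction n with
  | zero => simp [YY, FF]
  | succ n ih =>
    have h0' : ∀ p ∈ PP B0 B n, 0 ≤ ρ p := fun p hp => h0 p (mem_PP_succ.mpr (Or.inl hp))
    have h1' : ∀ p ∈ PP B0 B n, ρ p < 1 := fun p hp => h1 p (mem_PP_succ.mpr (Or.inl hp))
    have ih := ih (fun i hi => hd i (by omega)) h0' h1'
    have g0 : ∀ p ∈ B n, 0 ≤ ρ p := fun p hp => h0 p (mem_PP_succ.mpr (Or.inr hp))
    have g1 : ∀ p ∈ B n, ρ p < 1 := fun p hp => h1 p (mem_PP_succ.mpr (Or.inr hp))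
    have u1 := W_le_U ρ (B n) g0 (fun p hp => (g1 p hp).le) (hb n)
    have wpos : 0 < W ρ (B n) := Finset.prod_pos fun p hp => by linarith [g1 p hp]
    have e0 := E_nonneg g0 (b n + 1)
    have y0 : 0 ≤ YY B0 B b ρ n :=
      (W_nonneg (fun p hp => (h1' p hp).le)).trans
        (pointwise hb n (fun i hi => hd i (by omega)) ρ h0' (fun p hp => (h1' p hp).le)).1
    rw [Finset.sum_range_succ]
    show YY B0 B b ρ n * U ρ (B n) (b n) * _ ≤
      FF B0 B b ρ n * U ρ (B n) (b n) - YY B0 B b ρ n * E ρ (B n) (b n + 1)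
    have a1 := mul_le_mul_of_nonneg_right ih (wpos.le.trans u1)
    have a2 : E ρ (B n) (b n + 1) ≤ E ρ (B n) (b n + 1) / W ρ (B n) * U ρ (B n) (b n) := by
      rw [div_mul_eq_mul_div, le_div_iff₀ wpos]
      exact mul_le_mul_of_nonneg_left u1 e0
    have a3 := mul_le_mul_of_nonneg_left a2 y0
    nlinarith

lemma rep_YY (n : ℕ) (hd : ∀ i < n, Disjoint (PP B0 B i) (B i)) {w : ℕ → ℝ}
    (hw : ∀ p ∈ PP B0 B n, 0 ≤ w p) :
    Rep (PP B0 B n) w ((∏ p ∈ B0, (1 + w p)) * ∏ i ∈ range n, (1 + ∑ p ∈ B i, w p) ^ (b i))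
      (fun ρ => YY B0 B b ρ n) := by
  induction n with
  | zero =>
    simp only [Finset.range_zero, Finset.prod_empty, mul_one]
    exact rep_W B0 w
  | succ n ih =>
    have hw' : ∀ p ∈ PP B0 B n, 0 ≤ w p := fun p hp => hw p (mem_PP_succ.mpr (Or.inl hp))
    have ih := ih (fun i hi => hd i (by omega)) hw'
    have hw2 : ∀ p ∈ B n, 0 ≤ w p := fun p hp => hw p (mem_PP_succ.mpr (Or.inr hp))
    rw [Finset.prod_range_succ, ← mul_assoc]
    exact Rep.mul (hd n (by omega)) hw' hw2 ih (rep_U (B n) hw2 (b n))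

lemma rep_FF (n : ℕ) (hd : ∀ i < n, Disjoint (PP B0 B i) (B i)) {w : ℕ → ℝ}
    (hw : ∀ p ∈ PP B0 B n, 0 ≤ w p) :
    Rep (PP B0 B n) w ((∏ p ∈ B0, (1 + w p)) * (∏ i ∈ range n, (1 + ∑ p ∈ B i, w p) ^ (b i)) *
      (1 + ∑ i ∈ range n, (1 + ∑ p ∈ B i, w p)))
      (fun ρ => FF B0 B b ρ n) := by
  induction n with
  | zero =>
    simp only [Finset.range_zero, Finset.prod_empty, mul_one, Finset.sum_empty, add_zero]
    exact rep_W B0 w
  | succ n ih =>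
    have hw' : ∀ p ∈ PP B0 B n, 0 ≤ w p := fun p hp => hw p (mem_PP_succ.mpr (Or.inl hp))
    have hd' : ∀ i < n, Disjoint (PP B0 B i) (B i) := fun i hi => hd i (by omega)
    have ih := ih hd' hw'
    have hw2 : ∀ p ∈ B n, 0 ≤ w p := fun p hp => hw p (mem_PP_succ.mpr (Or.inr hp))
    have hwu : ∀ p ∈ PP B0 B n ∪ B n, 0 ≤ w p := hw
    have r1 := Rep.mul (hd n (by omega)) hw' hw2 ih (rep_U (B n) hw2 (b n))
    have r2 := Rep.mul (hd n (by omega)) hw' hw2 (rep_YY (b := b) n hd' hw')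
      (rep_E (B n) hw2 (b n + 1))
    refine (Rep.sub hwu r1 r2).mono ?_
    rw [Finset.prod_range_succ, Finset.sum_range_succ]
    have hS : 0 ≤ ∑ p ∈ B n, w p := Finset.sum_nonneg hw2
    set S := ∑ p ∈ B n, w p with hSd
    have hB0w : ∀ m, (∀ p ∈ PP B0 B m, 0 ≤ w p) → ∀ p ∈ B0, 0 ≤ w p := by
      intro m
      induction m with
      | zero => intro h p hp; exact h p hp
      | succ m ihm => intro h; exact ihm (fun p hp => h p (mem_PP_succ.mpr (Or.inl hp)))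
    have hM0 : 0 ≤ ∏ p ∈ B0, (1 + w p) :=
      Finset.prod_nonneg fun p hp => by linarith [hB0w n hw' p hp]
    have hBw : ∀ m, (∀ p ∈ PP B0 B m, 0 ≤ w p) → ∀ i < m, ∀ p ∈ B i, 0 ≤ w p := by
      intro m
      induction m with
      | zero => intro h i hi; omega
      | succ m ihm =>
        intro h i hi p hp
        rcases Nat.lt_succ_iff_lt_or_eq.mp hi with h1 | h1
        · exact ihm (fun p hp => h p (mem_PP_succ.mpr (Or.inl hp))) i h1 p hp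
        · subst h1; exact h p (mem_PP_succ.mpr (Or.inr hp))
    have hPi : 0 ≤ ∏ i ∈ range n, (1 + ∑ p ∈ B i, w p) ^ (b i) := by
      apply Finset.prod_nonneg
      intro i hi
      have : 0 ≤ ∑ p ∈ B i, w p := Finset.sum_nonneg (hBw n hw' i (Finset.mem_range.mp hi))
      positivity
    set A := ∏ p ∈ B0, (1 + w p)
    set Q := ∏ i ∈ range n, (1 + ∑ p ∈ B i, w p) ^ (b i)
    set R := ∑ i ∈ range n, (1 + ∑ p ∈ B i, w p)
    have key : S ^ (b n + 1) ≤ (1 + S) ^ (b n) * (1 + S) := by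
      rw [← pow_succ]
      exact pow_le_pow_left₀ hS (by linarith) _
    have hAQ : 0 ≤ A * Q := mul_nonneg hM0 hPi
    have := mul_le_mul_of_nonneg_left key hAQ
    nlinarith

end

/-- From a representation to an estimate of sums. -/
lemma Rep.sum_estimate {P : Finset ℕ} {w : ℕ → ℝ} {M : ℝ} {F : (ℕ → ℝ) → ℝ} (h : Rep P w M F)
    {ι : Type*} (S : Finset ι) (ind : ι → ℕ → ℝ) (X : ℝ) (ρ : ℕ → ℝ)
    (hA : ∀ T ⊆ P, |∑ x ∈ S, ∏ p ∈ T, ind x p - X * ∏ p ∈ T, ρ p| ≤ ∏ p ∈ T, w p) :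
    |∑ x ∈ S, F (ind x) - X * F ρ| ≤ M := by
  obtain ⟨c, h1, h2⟩ := h
  refine le_trans ?_ h2
  have e1 : ∑ x ∈ S, F (ind x) - X * F ρ
      = ∑ T ∈ P.powerset, c T * (∑ x ∈ S, ∏ p ∈ T, ind x p - X * ∏ p ∈ T, ρ p) := by
    simp only [h1, mul_sub, Finset.sum_sub_distrib, Finset.mul_sum]
    rw [Finset.sum_comm]
    congr 1
    apply Finset.sum_congr rfl
    intro T _
    ring
  rw [e1]
  refine (Finset.abs_sum_le_sum_abs _ _).trans ?_
  apply Finset.sum_le_sum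
  intro T hT
  rw [abs_mul]
  exact mul_le_mul_of_nonneg_left (hA T (Finset.mem_powerset.mp hT)) (abs_nonneg _)

/-- The Brun-Hooley lower bound sieve. -/
theorem brun_hooley {B0 : Finset ℕ} {B : ℕ → Finset ℕ} {b : ℕ → ℕ} (hb : ∀ i, Even (b i)) (n : ℕ)
    (hd : ∀ i < n, Disjoint (PP B0 B i) (B i)) {ι : Type*} (S : Finset ι) (ind : ι → ℕ → ℝ)
    (hind : ∀ x p, ind x p = 0 ∨ ind x p = 1) (X : ℝ) (hX : 0 ≤ X) (ρ w : ℕ → ℝ)
    (hρ0 : ∀ p ∈ PP B0 B n, 0 ≤ ρ p) (hρ1 : ∀ p ∈ PP B0 B n, ρ p < 1)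
    (hw : ∀ p ∈ PP B0 B n, 0 ≤ w p)
    (hA : ∀ T ⊆ PP B0 B n,
      |∑ x ∈ S, ∏ p ∈ T, ind x p - X * ∏ p ∈ T, ρ p| ≤ ∏ p ∈ T, w p)
    (hE : ∑ i ∈ range n, E ρ (B i) (b i + 1) / W ρ (B i) ≤ 1) :
    X * (W ρ (PP B0 B n) * (1 - ∑ i ∈ range n, E ρ (B i) (b i + 1) / W ρ (B i)))
      - (∏ p ∈ B0, (1 + w p)) * (∏ i ∈ range n, (1 + ∑ p ∈ B i, w p) ^ (b i)) *
      (1 + ∑ i ∈ range n, (1 + ∑ p ∈ B i, w p))
      ≤ ((S.filter (fun x => ∀ p ∈ PP B0 B n, ind x p = 0)).card : ℝ) := by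
  have h1 := (rep_FF (b := b) n hd hw).sum_estimate S ind X ρ hA
  have h2 : ∑ x ∈ S, FF B0 B b (ind x) n ≤
      ((S.filter (fun x => ∀ p ∈ PP B0 B n, ind x p = 0)).card : ℝ) := by
    rw [Finset.card_filter]
    push_cast
    apply Finset.sum_le_sum
    intro x _
    refine (pointwise hb n hd (ind x) ?_ ?_).2.trans ?_
    · intro p _; rcases hind x p with h | h <;> rw [h]; norm_num
    · intro p _; rcases hind x p with h | h <;> rw [h]; norm_num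
    · split_ifs with h
      · apply W_le_one
        · intro p hp; rw [h p hp]; norm_num
        · intro p hp; rw [h p hp]
      · push Not at h
        obtain ⟨p, hp, hp'⟩ := h
        have : ind x p = 1 := (hind x p).resolve_left hp'
        unfold W
        rw [Finset.prod_eq_zero hp (by rw [this]; ring)]
  have h3 := FF_lower hb n hd ρ hρ0 hρ1
  have h4 := (pointwise hb n hd ρ hρ0 (fun p hp => (hρ1 p hp).le)).1
  have h5 : W ρ (PP B0 B n) * (1 - ∑ i ∈ range n, E ρ (B i) (b i + 1) / W ρ (B i))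
      ≤ FF B0 B b ρ n :=
    (mul_le_mul_of_nonneg_right h4 (by linarith)).trans h3
  have h6 := mul_le_mul_of_nonneg_left h5 hX
  have h7 := (abs_le.mp h1).1
  linarith

end Pool.Agent.Lib.MP_0da313_nt
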