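import Mathlib
import Pool.Agent.Lib.MP_0da313_nt.Recur
import Pool.Agent.Lib.MP_0da313_nt.Cheb
import Pool.Agent.Lib.MP_0da313_nt.Count

open Finset

namespace Pool.Agent.Lib.MP_0da313_nt

/-- small primes. -/
def small (D : ℕ) : Finset ℕ := (range (2 ^ (2 ^ D) + 1)).filter Nat.Prime

lemma mem_PP_iff (D n p : ℕ) :
    p ∈ PP (small D) (fun i => blk (D + i)) n ↔ p.Prime ∧ p ≤ 2 ^ (2 ^ (D + n)) := by
  induction n with
  | zero =>
    simp only [PP, small, Finset.mem_filter, Finset.mem_range, Nat.lt_succ_iff, add_zero]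
    tauto
  | succ n ih =>
    rw [mem_PP_succ, ih, mem_blk, show D + (n + 1) = D + n + 1 by ring]
    have hmono : 2 ^ (2 ^ (D + n)) ≤ 2 ^ (2 ^ (D + n + 1)) :=
      Nat.pow_le_pow_right (by norm_num) (Nat.pow_le_pow_right (by norm_num) (by omega))
    constructor
    · rintro (⟨h1, h2⟩ | ⟨⟨h1, h2⟩, h3⟩)
      · exact ⟨h1, h2.trans hmono⟩
      · exact ⟨h3, h2⟩
    · rintro ⟨h1, h2⟩
      rcases le_or_gt p (2 ^ (2 ^ (D + n))) with h3 | h3
      · exact Or.inl ⟨h1, h3⟩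
      · exact Or.inr ⟨⟨h3, h2⟩, h1⟩

lemma disj (D : ℕ) (i : ℕ) :
    Disjoint (PP (small D) (fun i => blk (D + i)) i) (blk (D + i)) := by
  rw [Finset.disjoint_left]
  intro p hp hp'
  rw [mem_PP_iff] at hp
  rw [mem_blk] at hp'
  omega

/-- lower bound for the sifted density when all densities are at most `1/2`. -/
lemma W_lower {ρ : ℕ → ℝ} {B : Finset ℕ} (h0 : ∀ p ∈ B, 0 ≤ ρ p) (h1 : ∀ p ∈ B, ρ p ≤ 1 / 2)
    {S : ℝ} (hS : ∑ p ∈ B, ρ p ≤ S) : ((1 : ℝ) / 2) ^ (2 * S) ≤ W ρ B := by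
  have e1 : ∀ p ∈ B, ((1 : ℝ) / 2) ^ (2 * ρ p) ≤ 1 - ρ p := by
    intro p hp
    have := rpow_one_add_le_one_add_mul_self (s := -1 / 2) (by norm_num)
      (p := 2 * ρ p) (by linarith [h0 p hp]) (by linarith [h1 p hp])
    rw [show (1 : ℝ) + -1 / 2 = 1 / 2 by norm_num] at this
    linarith
  have e2 : ∏ p ∈ B, ((1 : ℝ) / 2) ^ (2 * ρ p) ≤ W ρ B :=
    Finset.prod_le_prod (fun p _ => Real.rpow_nonneg (by norm_num) _) e1
  rw [← Real.rpow_sum_of_pos (by norm_num), ← Finset.mul_sum] at e2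
  refine le_trans ?_ e2
  apply Real.rpow_le_rpow_of_exponent_ge (by norm_num) (by norm_num)
  linarith

/-- `(2D)^N / N! ≤ 2^(12 D) / 4^N`. -/
lemma pow_div_factorial_le (D N : ℕ) :
    ((2 * D : ℝ)) ^ N / N.factorial ≤ 2 ^ (12 * D) / 4 ^ N := by
  have h1 := Real.pow_div_factorial_le_exp (x := 8 * D) (by positivity) N
  have h2 : Real.exp (8 * D) ≤ 2 ^ (12 * D) := by
    have h3 : Real.exp (8 * D) = (Real.exp 1 ^ 2) ^ (4 * D) := by
      rw [← pow_mul, ← Real.exp_nat_mul]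
      congr 1
      push_cast
      ring
    have h4 : Real.exp 1 ^ 2 ≤ 8 := by
      have := Real.exp_one_lt_d9
      have h5 := Real.exp_pos 1
      nlinarith
    rw [h3, show (2 : ℝ) ^ (12 * D) = 8 ^ (4 * D) by
      rw [show (8 : ℝ) = 2 ^ 3 by norm_num, ← pow_mul]; congr 1; ring]
    exact pow_le_pow_left₀ (by positivity) h4 _
  have h6 : (2 * D : ℝ) ^ N / N.factorial = ((8 * D : ℝ) ^ N / N.factorial) / 4 ^ N := by
    rw [show (8 * D : ℝ) = 4 * (2 * D) by ring, mul_pow 4]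
    have : (4 : ℝ) ^ N ≠ 0 := by positivity
    field_simp
  rw [h6]
  exact div_le_div_of_nonneg_right (h1.trans h2) (by positivity)

lemma sum_weights (D n : ℕ) :
    ∑ i ∈ range n, 2 ^ i * (8 * D + 2 * (n - 1 - i)) ≤ 2 ^ n * (8 * D + 2) := by
  induction n with
  | zero => simp
  | succ n ih =>
    rw [Finset.sum_range_succ]
    have h1 : ∑ i ∈ range n, 2 ^ i * (8 * D + 2 * (n + 1 - 1 - i))
        = ∑ i ∈ range n, 2 ^ i * (8 * D + 2 * (n - 1 - i)) + ∑ i ∈ range n, 2 ^ i * 2 := by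
      rw [← Finset.sum_add_distrib]
      apply Finset.sum_congr rfl
      intro i hi
      rw [Finset.mem_range] at hi
      rw [← mul_add]
      congr 1
      omega
    have h2 : ∑ i ∈ range n, 2 ^ i * 2 ≤ 2 * 2 ^ n := by
      rw [← Finset.sum_mul]
      have : ∑ i ∈ range n, 2 ^ i < 2 ^ n := Nat.geomSum_lt (by norm_num) (by simp)
      omega
    rw [h1, show n + 1 - 1 - n = 0 by omega, pow_succ]
    nlinarith

/-- The sieve with all parameters chosen. -/
theorem sieve_main (D n : ℕ) (hD : 1 ≤ D) (Q : ℕ → ℕ → Prop) [∀ p, DecidablePred (Q p)]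
    (hQ : ∀ p x, Q p (x % p) ↔ Q p x)
    (hωD : ∀ p, p.Prime → ((range p).filter (Q p)).card ≤ D)
    (hωp : ∀ p, p.Prime → ((range p).filter (Q p)).card < p) (X : ℕ)
    [DecidablePred fun x => ∀ p : ℕ, p.Prime → p ≤ 2 ^ (2 ^ (D + n)) → ¬ Q p x] :
    (X : ℝ) * ((∏ p ∈ small D, (1 / (p : ℝ))) * (1 / 2) ^ (4 * D * n) * (1 / 2))
      - (1 + D : ℝ) ^ (small D).card * (n + 1) * 2 ^ (2 ^ (D + n) * (24 * D + 8))
      ≤ (((Ico 1 (1 + X)).filter (fun x => ∀ p : ℕ, p.Prime → p ≤ 2 ^ (2 ^ (D + n)) →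
          ¬ Q p x)).card : ℝ) := by
  set ω : ℕ → ℝ := fun p => (((range p).filter (Q p)).card : ℝ) with hω
  set ρ : ℕ → ℝ := fun p => ω p / p with hρ
  set B : ℕ → Finset ℕ := fun i => blk (D + i) with hB
  set b : ℕ → ℕ := fun i => 8 * D + 2 * (n - 1 - i) with hbdef
  have hDr : (1 : ℝ) ≤ D := by exact_mod_cast hD
  have hb : ∀ i, Even (b i) := fun i => ⟨4 * D + (n - 1 - i), by simp only [hbdef]; ring⟩
  have hω0 : ∀ p, 0 ≤ ω p := fun p => by positivity
  have hωD' : ∀ p, p.Prime → ω p ≤ D := fun p hp => by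
    show (((range p).filter (Q p)).card : ℝ) ≤ D
    exact_mod_cast hωD p hp
  have hωp' : ∀ p, p.Prime → ω p ≤ p - 1 := fun p hp => by
    have h1 := hωp p hp
    have h2 : ((range p).filter (Q p)).card + 1 ≤ p := h1
    have h3 : ((((range p).filter (Q p)).card + 1 : ℕ) : ℝ) ≤ (p : ℝ) := by exact_mod_cast h2
    push_cast at h3
    show (((range p).filter (Q p)).card : ℝ) ≤ _
    linarith
  have hρ0 : ∀ p, 0 ≤ ρ p := fun p => div_nonneg (hω0 p) (by positivity)
  have hρ1 : ∀ p, p.Prime → ρ p < 1 := fun p hp => by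
    have : (0 : ℝ) < p := by exact_mod_cast hp.pos
    show ω p / p < 1
    rw [div_lt_one this]
    linarith [hωp' p hp]
  -- sums over blocks
  have hSrho : ∀ i, ∑ p ∈ B i, ρ p ≤ 2 * D := by
    intro i
    have h1 : ∑ p ∈ B i, ρ p ≤ ∑ p ∈ B i, (D : ℝ) * (1 / p) := by
      apply Finset.sum_le_sum
      intro p hp
      have hpp := (mem_blk.mp hp).2
      show ω p / p ≤ _
      rw [mul_one_div]
      exact div_le_div_of_nonneg_right (hωD' p hpp) (by positivity)
    refine h1.trans ?_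
    rw [← Finset.mul_sum]
    have := sum_blk_le (D + i)
    nlinarith
  have hbig : ∀ i, ∀ p ∈ B i, ρ p ≤ 1 / 2 := by
    intro i p hp
    have hp' := mem_blk.mp hp
    have h1 : 2 * D ≤ p := by
      have h2 : D < 2 ^ D := Nat.lt_two_pow_self
      have h3 : 2 ^ D ≤ 2 ^ (D + i) := Nat.pow_le_pow_right (by norm_num) (by omega)
      have h4 : ∀ k : ℕ, 1 ≤ k → 2 * k ≤ 2 ^ k := by
        intro k hk
        obtain ⟨j, rfl⟩ : ∃ j, k = j + 1 := ⟨k - 1, by omega⟩
        have : j < 2 ^ j := Nat.lt_two_pow_self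
        rw [pow_succ]
        omega
      have h5 := h4 (2 ^ (D + i)) Nat.one_le_two_pow
      omega
    have h2 : (0 : ℝ) < p := by exact_mod_cast hp'.2.pos
    show ω p / p ≤ 1 / 2
    rw [div_le_div_iff₀ h2 (by norm_num)]
    have h3 : (2 * D : ℝ) ≤ p := by exact_mod_cast h1
    have := hωD' p hp'.2
    linarith
  have hWB : ∀ i, ((1 : ℝ) / 2) ^ (4 * D) ≤ W ρ (B i) := by
    intro i
    have := W_lower (B := B i) (fun p _ => hρ0 p) (hbig i) (hSrho i)
    rw [show (2 : ℝ) * (2 * D) = ((4 * D : ℕ) : ℝ) by push_cast; ring, Real.rpow_natCast] at this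
    exact this
  -- error ratio
  have hratio : ∀ i ∈ range n, E ρ (B i) (b i + 1) / W ρ (B i) ≤ (1 / 4) * (1 / 16) ^ (n - 1 - i) := by
    intro i _
    have hWpos : 0 < ((1 : ℝ) / 2) ^ (4 * D) := by positivity
    have hWpos' : 0 < W ρ (B i) := lt_of_lt_of_le hWpos (hWB i)
    have h1 := E_le ρ (B i) (fun p _ => hρ0 p) (b i + 1)
    have h2 : (∑ p ∈ B i, ρ p) ^ (b i + 1) ≤ (2 * D : ℝ) ^ (b i + 1) :=
      pow_le_pow_left₀ (Finset.sum_nonneg fun p _ => hρ0 p) (hSrho i) _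
    have h3 : (0 : ℝ) < ((b i + 1).factorial : ℝ) := by exact_mod_cast Nat.factorial_pos _
    have h4 : E ρ (B i) (b i + 1) ≤ (2 * D : ℝ) ^ (b i + 1) / (b i + 1).factorial := by
      rw [le_div_iff₀ h3]
      linarith
    have h5 := h4.trans (pow_div_factorial_le D (b i + 1))
    rw [div_le_iff₀ hWpos']
    refine h5.trans ?_
    have h6 : (2 : ℝ) ^ (12 * D) / 4 ^ (b i + 1)
        = (1 / 4) * (1 / 16) ^ (n - 1 - i) * (1 / 2) ^ (4 * D) := by
      have h7 : (4 : ℝ) ^ (b i + 1) = 4 * 16 ^ (n - 1 - i) * (2 ^ (4 * D) * 2 ^ (12 * D)) := by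
        simp only [hbdef]
        rw [← pow_add, show 8 * D + 2 * (n - 1 - i) + 1 = 1 + 2 * (n - 1 - i) + 8 * D by ring,
          pow_add, pow_add, pow_mul, show 4 * D + 12 * D = 2 * (8 * D) by ring, pow_mul 2 2]
        norm_num
      rw [h7, one_div_pow, one_div_pow]
      have : (2 : ℝ) ^ (12 * D) ≠ 0 := by positivity
      field_simp
    rw [h6]
    exact mul_le_mul_of_nonneg_left (hWB i) (by positivity)
  have hgeom : ∑ i ∈ range n, (1 / 4 : ℝ) * (1 / 16) ^ (n - 1 - i) ≤ 1 / 2 := by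
    rw [Finset.sum_range_reflect (fun j => (1 / 4 : ℝ) * (1 / 16) ^ j) n, ← Finset.mul_sum]
    have h1 : ∑ i ∈ range n, ((1 : ℝ) / 16) ^ i ≤ 2 := by
      have := geom_sum_eq (x := (1 : ℝ) / 16) (by norm_num) n
      rw [this, div_le_iff_of_neg (by norm_num)]
      have : (0 : ℝ) ≤ (1 / 16) ^ n := by positivity
      linarith
    linarith
  have hSum : ∑ i ∈ range n, E ρ (B i) (b i + 1) / W ρ (B i) ≤ 1 / 2 :=
    (Finset.sum_le_sum hratio).trans hgeom
  -- apply the abstract sieve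
  have hmain := brun_hooley (B0 := small D) (B := B) (b := b) hb n (fun i _ => disj D i)
    (Ico 1 (1 + X)) (fun x p => if Q p x then (1 : ℝ) else 0)
    (fun x p => by by_cases h : Q p x <;> simp [h]) (X : ℝ) (by positivity) ρ ω
    (fun p _ => hρ0 p) (fun p hp => hρ1 p ((mem_PP_iff D n p).mp hp).1) (fun p _ => hω0 p)
    (fun T hT => count_estimate Q hQ T (fun p hp => ((mem_PP_iff D n p).mp (hT hp)).1) X)
    (hSum.trans (by norm_num))
  -- rewrite the right-hand side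
  have hR : ((Ico 1 (1 + X)).filter (fun x => ∀ p ∈ PP (small D) B n,
      (if Q p x then (1 : ℝ) else 0) = 0))
      = ((Ico 1 (1 + X)).filter (fun x => ∀ p : ℕ, p.Prime → p ≤ 2 ^ (2 ^ (D + n)) → ¬ Q p x)) := by
    apply Finset.filter_congr
    intro x _
    constructor
    · intro h p hp hp'
      have := h p ((mem_PP_iff D n p).mpr ⟨hp, hp'⟩)
      simpa using this
    · intro h p hp
      have hp' := (mem_PP_iff D n p).mp hp
      have := h p hp'.1 hp'.2
      simpa using this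
  rw [hR] at hmain
  refine le_trans ?_ hmain
  -- main term
  have hW0 : ∏ p ∈ small D, (1 / (p : ℝ)) ≤ W ρ (small D) := by
    apply Finset.prod_le_prod
    · intro p _; positivity
    · intro p hp
      have hpp : p.Prime := (Finset.mem_filter.mp hp).2
      have h2 : (0 : ℝ) < p := by exact_mod_cast hpp.pos
      show 1 / (p : ℝ) ≤ 1 - ω p / p
      rw [div_le_iff₀ h2, sub_mul, div_mul_cancel₀ _ h2.ne']
      linarith [hωp' p hpp]
  have hWPP : ∀ m, (∏ p ∈ small D, (1 / (p : ℝ))) * (1 / 2) ^ (4 * D * m)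
      ≤ W ρ (PP (small D) B m) := by
    intro m
    induction m with
    | zero =>
      rw [mul_zero, pow_zero, mul_one]
      exact hW0
    | succ m ih =>
      have h1 : W ρ (PP (small D) B (m + 1)) = W ρ (PP (small D) B m) * W ρ (B m) :=
        W_union (disj D m)
      rw [h1, show 4 * D * (m + 1) = 4 * D * m + 4 * D by ring, pow_add, ← mul_assoc]
      apply mul_le_mul ih (hWB m) (by positivity)
      refine le_trans ?_ ih
      exact mul_nonneg (Finset.prod_nonneg fun p _ => by positivity) (by positivity)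
  have hmainterm : (X : ℝ) * ((∏ p ∈ small D, (1 / (p : ℝ))) * (1 / 2) ^ (4 * D * n) * (1 / 2))
      ≤ (X : ℝ) * (W ρ (PP (small D) B n) *
        (1 - ∑ i ∈ range n, E ρ (B i) (b i + 1) / W ρ (B i))) := by
    apply mul_le_mul_of_nonneg_left _ (by positivity)
    apply mul_le_mul (hWPP n) (by linarith) (by norm_num)
    exact W_nonneg fun p hp => (hρ1 p ((mem_PP_iff D n p).mp hp).1).le
  -- error term
  have hV : ∀ i, (1 + ∑ p ∈ B i, ω p) ≤ 2 ^ (3 * 2 ^ (D + i)) := by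
    intro i
    have h1 : ∑ p ∈ B i, ω p ≤ ∑ _p ∈ B i, (D : ℝ) := by
      apply Finset.sum_le_sum
      intro p hp
      exact hωD' p (mem_blk.mp hp).2
    rw [Finset.sum_const, nsmul_eq_mul] at h1
    have h2 := card_blk_le (D + i)
    have h3 : (((B i).card + 1 : ℕ) : ℝ) ≤ ((2 ^ (2 ^ (D + i + 1)) : ℕ) : ℝ) := by exact_mod_cast h2
    push_cast at h3
    have h4 : (D : ℝ) ≤ 2 ^ (2 ^ (D + i)) := by
      have h2 : D < 2 ^ D := Nat.lt_two_pow_self
      have h3 : 2 ^ D ≤ 2 ^ (D + i) := Nat.pow_le_pow_right (by norm_num) (by omega)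
      have h4 : 2 ^ (D + i) < 2 ^ (2 ^ (D + i)) := Nat.lt_two_pow_self
      have h5 : D ≤ 2 ^ (2 ^ (D + i)) := by omega
      exact_mod_cast h5
    calc (1 + ∑ p ∈ B i, ω p) ≤ (D : ℝ) * ((B i).card + 1) := by nlinarith
      _ ≤ 2 ^ (2 ^ (D + i)) * 2 ^ (2 ^ (D + i + 1)) :=
          mul_le_mul h4 h3 (by positivity) (by positivity)
      _ = 2 ^ (3 * 2 ^ (D + i)) := by
          rw [← pow_add]
          congr 1
          rw [pow_succ]
          ring
  have hV0 : ∀ i, 0 ≤ (1 + ∑ p ∈ B i, ω p) := fun i =>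
    add_nonneg zero_le_one (Finset.sum_nonneg fun p _ => hω0 p)
  have herr1 : ∏ p ∈ small D, (1 + ω p) ≤ (1 + D : ℝ) ^ (small D).card := by
    rw [← Finset.prod_const]
    apply Finset.prod_le_prod
    · intro p _; linarith [hω0 p]
    · intro p hp
      have hpp : p.Prime := (Finset.mem_filter.mp hp).2
      linarith [hωD' p hpp]
  have herr2 : ∏ i ∈ range n, (1 + ∑ p ∈ B i, ω p) ^ (b i) ≤ 2 ^ (2 ^ (D + n) * (24 * D + 6)) := by
    calc ∏ i ∈ range n, (1 + ∑ p ∈ B i, ω p) ^ (b i)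
        ≤ ∏ i ∈ range n, ((2 : ℝ) ^ (3 * 2 ^ (D + i))) ^ (b i) := by
          apply Finset.prod_le_prod
          · intro i _; exact pow_nonneg (hV0 i) _
          · intro i _; exact pow_le_pow_left₀ (hV0 i) (hV i) _
      _ = 2 ^ (∑ i ∈ range n, 3 * 2 ^ (D + i) * b i) := by
          rw [← Finset.prod_pow_eq_pow_sum]
          apply Finset.prod_congr rfl
          intro i _
          rw [← pow_mul]
      _ ≤ 2 ^ (2 ^ (D + n) * (24 * D + 6)) := by
          apply pow_le_pow_right₀ (by norm_num)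
          have h1 := sum_weights D n
          have h2 : ∑ i ∈ range n, 3 * 2 ^ (D + i) * b i
              = 3 * 2 ^ D * ∑ i ∈ range n, 2 ^ i * (8 * D + 2 * (n - 1 - i)) := by
            rw [Finset.mul_sum]
            apply Finset.sum_congr rfl
            intro i _
            simp only [hbdef]
            rw [pow_add]
            ring
          rw [h2, pow_add]
          calc 3 * 2 ^ D * ∑ i ∈ range n, 2 ^ i * (8 * D + 2 * (n - 1 - i))
              ≤ 3 * 2 ^ D * (2 ^ n * (8 * D + 2)) := Nat.mul_le_mul_left _ h1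
            _ = 2 ^ D * 2 ^ n * (24 * D + 6) := by ring
  have herr3 : 1 + ∑ i ∈ range n, (1 + ∑ p ∈ B i, ω p) ≤ (n + 1) * 2 ^ (2 ^ (D + n) * 2) := by
    have h1 : ∑ i ∈ range n, (1 + ∑ p ∈ B i, ω p) ≤ ∑ _i ∈ range n, (2 : ℝ) ^ (2 ^ (D + n) * 2) := by
      apply Finset.sum_le_sum
      intro i hi
      rw [Finset.mem_range] at hi
      refine (hV i).trans ?_
      apply pow_le_pow_right₀ (by norm_num)
      have h2 : 2 * 2 ^ (D + i) ≤ 2 ^ (D + n) := by
        rw [← pow_succ']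
        exact Nat.pow_le_pow_right (by norm_num) (by omega)
      omega
    rw [Finset.sum_const, Finset.card_range, nsmul_eq_mul] at h1
    have h2 : (1 : ℝ) ≤ 2 ^ (2 ^ (D + n) * 2) := one_le_pow₀ (by norm_num)
    linarith
  have herr : (∏ p ∈ small D, (1 + ω p)) * (∏ i ∈ range n, (1 + ∑ p ∈ B i, ω p) ^ (b i)) *
      (1 + ∑ i ∈ range n, (1 + ∑ p ∈ B i, ω p))
      ≤ (1 + D : ℝ) ^ (small D).card * (n + 1) * 2 ^ (2 ^ (D + n) * (24 * D + 8)) := by
    have g1 : 0 ≤ ∏ i ∈ range n, (1 + ∑ p ∈ B i, ω p) ^ (b i) :=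
      Finset.prod_nonneg fun i _ => pow_nonneg (hV0 i) _
    have g2 : 0 ≤ 1 + ∑ i ∈ range n, (1 + ∑ p ∈ B i, ω p) :=
      add_nonneg zero_le_one (Finset.sum_nonneg fun i _ => hV0 i)
    calc _ ≤ ((1 + D : ℝ) ^ (small D).card * 2 ^ (2 ^ (D + n) * (24 * D + 6))) *
          ((n + 1) * 2 ^ (2 ^ (D + n) * 2)) := by
          apply mul_le_mul _ herr3 g2 (by positivity)
          exact mul_le_mul herr1 herr2 g1 (by positivity)
      _ = _ := by
          rw [show 2 ^ (D + n) * (24 * D + 8) = 2 ^ (D + n) * (24 * D + 6) + 2 ^ (D + n) * 2 by ring,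
            pow_add 2 (2 ^ (D + n) * (24 * D + 6))]
          ring
  linarith

end Pool.Agent.Lib.MP_0da313_nt
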