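import Mathlib
import Pool.Agent.Lib.MP_0da313_nt.Sieve
import Pool.Agent.Lib.MP_0da313_nt.Poly

open Finset Polynomial

namespace Pool.Agent.Lib.MP_0da313_nt

/-- choice of the sifting level. -/
lemma choose_level (D : ℕ) (hD : 1 ≤ D) : ∃ X₀ : ℕ, ∀ X : ℕ, X₀ ≤ X → ∃ n : ℕ,
    2 ^ (D + n) ≤ Nat.log 2 X ∧ (2 ^ (2 ^ (D + n) * (24 * D + 8))) ^ 2 ≤ X ∧
    X + 1 ≤ (2 ^ (2 ^ (D + n))) ^ (128 * D) := by
  refine ⟨2 ^ (2 ^ D * (48 * D + 16)), fun X hX => ?_⟩
  have hX0 : X ≠ 0 := by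
    have : 0 < 2 ^ (2 ^ D * (48 * D + 16)) := by positivity
    omega
  set L := Nat.log 2 X with hL
  have hL1 : 2 ^ D * (48 * D + 16) ≤ L := Nat.le_log_of_pow_le (by norm_num) hX
  set q := L / (48 * D + 16) with hq
  have hq1 : 2 ^ D ≤ q := (Nat.le_div_iff_mul_le (by omega)).mpr hL1
  have hq0 : q ≠ 0 := by
    have : 0 < 2 ^ D := by positivity
    omega
  set T := Nat.log 2 q with hT
  have hT1 : D ≤ T := Nat.le_log_of_pow_le (by norm_num) hq1
  have hT2 : 2 ^ T ≤ q := Nat.pow_log_le_self 2 hq0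
  have hT3 : q < 2 ^ (T + 1) := Nat.lt_pow_succ_log_self (by norm_num) q
  have hqL : q * (48 * D + 16) ≤ L := Nat.div_mul_le_self _ _
  have hqL2 : L < (q + 1) * (48 * D + 16) := Nat.lt_mul_of_div_lt (by omega) (by omega)
  refine ⟨T - D, ?_, ?_, ?_⟩
  · rw [show D + (T - D) = T by omega]
    calc 2 ^ T ≤ q := hT2
      _ ≤ q * (48 * D + 16) := Nat.le_mul_of_pos_right _ (by omega)
      _ ≤ L := hqL
  · rw [show D + (T - D) = T by omega, ← pow_mul]
    calc 2 ^ (2 ^ T * (24 * D + 8) * 2) ≤ 2 ^ L := by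
          apply Nat.pow_le_pow_right (by norm_num)
          calc 2 ^ T * (24 * D + 8) * 2 ≤ q * (24 * D + 8) * 2 := by gcongr
            _ = q * (48 * D + 16) := by ring
            _ ≤ L := hqL
      _ ≤ X := Nat.pow_log_le_self 2 hX0
  · rw [show D + (T - D) = T by omega, ← pow_mul]
    have h1 : X < 2 ^ (L + 1) := Nat.lt_pow_succ_log_self (by norm_num) X
    have h2 : L + 1 ≤ 2 ^ T * (128 * D) := by
      have h3 : (q + 1) * (48 * D + 16) ≤ 2 ^ (T + 1) * (48 * D + 16) := by gcongr; omega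
      have h4 : 2 ^ (T + 1) * (48 * D + 16) = 2 ^ T * (96 * D + 32) := by rw [pow_succ]; ring
      have h5 : 2 ^ T * (96 * D + 32) ≤ 2 ^ T * (128 * D) := by gcongr; omega
      omega
    calc X + 1 ≤ 2 ^ (L + 1) := h1
      _ ≤ _ := Nat.pow_le_pow_right (by norm_num) h2

/-- the asymptotic comparison. -/
lemma asymp (D : ℕ) (hD : 1 ≤ D) (c C : ℝ) (hc : 0 < c) (hC : 0 ≤ C) :
    ∀ᶠ n : ℕ in Filter.atTop, (n : ℝ) / (Real.log n) ^ (5 * D) ≤
      ((n : ℝ) - 1) * c / (2 * Real.log n) ^ (4 * D) - C * (2 * Real.log n) * Real.sqrt n - 2 * D := by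
  have hcast : Filter.Tendsto (fun n : ℕ => (n : ℝ)) Filter.atTop Filter.atTop :=
    tendsto_natCast_atTop_atTop
  set c1 := c / 2 ^ (4 * D) with hc1
  have hc1pos : 0 < c1 := by positivity
  -- log tends to infinity
  have e1 : ∀ᶠ n : ℕ in Filter.atTop, 4 / c1 ≤ Real.log n ∧ 1 ≤ Real.log n := by
    have h := Real.tendsto_log_atTop.comp hcast
    filter_upwards [h.eventually_ge_atTop (4 / c1), h.eventually_ge_atTop 1] with n h1 h2
    exact ⟨h1, h2⟩
  have e2 : ∀ᶠ n : ℕ in Filter.atTop,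
      (Real.log n) ^ (4 * D + 1) * (8 * C + 1) ≤ c1 * Real.sqrt n := by
    have h := isLittleO_log_rpow_rpow_atTop (s := 1 / 2) ((4 * D + 1 : ℕ) : ℝ) (by norm_num)
    have h2 := (h.bound (show (0 : ℝ) < c1 / (8 * C + 1) by positivity))
    have h3 := hcast.eventually h2
    filter_upwards [h3, Filter.eventually_ge_atTop 1] with n h4 hn
    rw [Real.rpow_natCast, ← Real.sqrt_eq_rpow] at h4
    have hln : 0 ≤ Real.log n := Real.log_natCast_nonneg n
    rw [Real.norm_of_nonneg (by positivity), Real.norm_of_nonneg (by positivity)] at h4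
    rw [div_mul_eq_mul_div, le_div_iff₀ (by positivity)] at h4
    exact h4
  have e3 : ∀ᶠ n : ℕ in Filter.atTop,
      (Real.log n) ^ (4 * D) * (8 * D) ≤ c1 * n := by
    have h := isLittleO_log_rpow_rpow_atTop (s := 1) ((4 * D : ℕ) : ℝ) (by norm_num)
    have hDr : (0 : ℝ) < 8 * D := by positivity
    have h2 := (h.bound (show (0 : ℝ) < c1 / (8 * D) by positivity))
    have h3 := hcast.eventually h2
    filter_upwards [h3, Filter.eventually_ge_atTop 1] with n h4 hn
    rw [Real.rpow_natCast, Real.rpow_one] at h4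
    have hln : 0 ≤ Real.log n := Real.log_natCast_nonneg n
    rw [Real.norm_of_nonneg (by positivity), Real.norm_of_nonneg (by positivity)] at h4
    rw [div_mul_eq_mul_div, le_div_iff₀ (by positivity)] at h4
    exact h4
  filter_upwards [e1, e2, e3, Filter.eventually_ge_atTop 4] with n h1 h2 h3 hn
  obtain ⟨h1, h1'⟩ := h1
  have hn' : (4 : ℝ) ≤ n := by exact_mod_cast hn
  set l := Real.log n with hl
  have hl0 : 0 < l := by linarith
  set s := Real.sqrt n with hs
  have hs0 : 0 ≤ s := Real.sqrt_nonneg _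
  have hss : s * s = n := Real.mul_self_sqrt (by positivity)
  have hlp : 0 < l ^ (4 * D) := by positivity
  have g0 : ((n : ℝ) - 1) * c / (2 * l) ^ (4 * D) = ((n : ℝ) - 1) * c1 / l ^ (4 * D) := by
    rw [hc1, mul_pow]; field_simp
  rw [g0]
  -- each piece is at most `(c1/4) n / l^(4D)`
  have p1 : (n : ℝ) / l ^ (5 * D) ≤ c1 / 4 * n / l ^ (4 * D) := by
    rw [show 5 * D = 4 * D + D by ring, pow_add, div_le_div_iff₀ (by positivity) hlp]
    have : 4 / c1 ≤ l ^ D := h1.trans (by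
      calc l = l ^ 1 := (pow_one l).symm
        _ ≤ l ^ D := pow_le_pow_right₀ h1' hD)
    rw [div_le_iff₀ hc1pos] at this
    have h5 : 0 ≤ (n : ℝ) * l ^ (4 * D) := by positivity
    nlinarith
  have p2 : C * (2 * l) * s ≤ c1 / 4 * n / l ^ (4 * D) := by
    rw [le_div_iff₀ hlp]
    have h5 : l ^ (4 * D + 1) * (8 * C) ≤ c1 * s := by
      have : 0 ≤ l ^ (4 * D + 1) := by positivity
      nlinarith
    have h6 := mul_le_mul_of_nonneg_right h5 hs0
    have h7 : C * (2 * l) * s * l ^ (4 * D) = l ^ (4 * D + 1) * (8 * C) * s / 4 := by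
      rw [pow_succ]; ring
    rw [h7]
    have h8 : c1 * s * s = c1 * n := by rw [mul_assoc, hss]
    linarith
  have p3 : (2 * D : ℝ) ≤ c1 / 4 * n / l ^ (4 * D) := by
    rw [le_div_iff₀ hlp]
    linarith
  have p4 : 3 * (c1 / 4 * n / l ^ (4 * D)) ≤ ((n : ℝ) - 1) * c1 / l ^ (4 * D) := by
    rw [← mul_div_assoc]
    apply div_le_div_of_nonneg_right _ hlp.le
    nlinarith
  linarith

/-- few prime factors if all are large. -/
lemma pow_cardFactors_le {N z : ℕ} (hN : N ≠ 0) (hz : ∀ p : ℕ, p.Prime → p ∣ N → z ≤ p) :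
    z ^ (ArithmeticFunction.cardFactors N) ≤ N := by
  rw [ArithmeticFunction.cardFactors_apply]
  conv_rhs => rw [← Nat.prod_primeFactorsList hN]
  apply List.pow_card_le_prod
  intro p hp
  exact hz p (Nat.prime_of_mem_primeFactorsList hp) (Nat.dvd_of_mem_primeFactorsList hp)

/-- integers in an interval that are roots of a nonzero polynomial. -/
lemma card_int_roots_le (H : ℤ[X]) (hH : H ≠ 0) (S : Finset ℕ) :
    (S.filter (fun x : ℕ => H.eval (x : ℤ) = 0)).card ≤ H.natDegree := by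
  have h1 : (S.filter (fun x : ℕ => H.eval (x : ℤ) = 0)).card ≤ H.roots.toFinset.card := by
    apply Finset.card_le_card_of_injOn (fun x : ℕ => (x : ℤ))
    · intro x hx
      simp only [Finset.coe_filter, Set.mem_ofPred_eq] at hx
      simp only [Finset.mem_coe, Multiset.mem_toFinset, mem_roots hH, IsRoot.def]
      exact hx.2
    · intro x _ y _ hxy
      have h2 : (x : ℤ) = (y : ℤ) := hxy
      exact_mod_cast h2
  calc _ ≤ H.roots.toFinset.card := h1
    _ ≤ Multiset.card H.roots := Multiset.toFinset_card_le _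
    _ ≤ H.natDegree := H.card_roots'

lemma log_two_le (n X : ℕ) (hX : X ≠ 0) (hn : X ≤ n) : ((Nat.log 2 X : ℕ) : ℝ) ≤ 2 * Real.log n := by
  have h1 : 2 ^ (Nat.log 2 X) ≤ n := (Nat.pow_log_le_self 2 hX).trans hn
  have h2 : ((2 : ℝ) ^ (Nat.log 2 X)) ≤ n := by exact_mod_cast h1
  have h3 := Real.log_le_log (by positivity) h2
  rw [Real.log_pow] at h3
  have h4 := Real.log_two_gt_d9
  have h5 : (0 : ℝ) ≤ (Nat.log 2 X : ℕ) := by positivity
  nlinarith

theorem main (m d : ℕ) (hm : 1 ≤ m) (hd : 1 ≤ d) (f : Fin m → MvPolynomial (Fin 2) ℤ)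
    (hdeg : ∀ k, (f k).totalDegree ≤ d) (hf : Admissible f) :
    ∃ N : ℕ, ∀ n : ℕ, N ≤ n →
      (n : ℝ) / (Real.log n) ^ (5 * (m * d)) ≤
        (Set.ncard {x : ℕ | 0 < x ∧ x < n ∧ ∀ k, 1 < |val (f k) x ((n : ℤ) - x)| ∧
          (∀ p : ℕ, p.Prime → (p : ℤ) ∣ val (f k) x ((n : ℤ) - x) → n < p ^ (128 * (m * d))) ∧
          ArithmeticFunction.cardFactors (val (f k) x ((n : ℤ) - x)).natAbs
            ≤ 128 * (m * d) * d} : ℝ) := by
  classical
  obtain ⟨N₀, hN₀⟩ := hf
  set D := m * d with hDdef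
  have hD : 1 ≤ D := Nat.one_le_iff_ne_zero.mpr (by positivity)
  obtain ⟨X₀, hX₀⟩ := choose_level D hD
  have hCf : ∀ k, ∃ C : ℕ, ∀ n : ℕ, 1 ≤ n → ∀ x y : ℤ, |x| ≤ n → |y| ≤ n →
      |val (f k) x y| ≤ C * (n : ℤ) ^ d := fun k => abs_val_le (f k) d (hdeg k)
  choose Cf hCf using hCf
  set Cmax := ∑ k, Cf k with hCmax
  set c : ℝ := (∏ p ∈ small D, (1 / (p : ℝ))) / 2 with hc
  have hcpos : 0 < c := by
    have : 0 < ∏ p ∈ small D, (1 / (p : ℝ)) := by
      apply Finset.prod_pos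
      intro p hp
      have hpp : p.Prime := (Finset.mem_filter.mp hp).2
      have : (0 : ℝ) < p := by exact_mod_cast hpp.pos
      positivity
    positivity
  set C0 : ℝ := (1 + D : ℝ) ^ (small D).card with hC0
  have hC0pos : 0 ≤ C0 := by positivity
  obtain ⟨N₁, hN₁⟩ := Filter.eventually_atTop.mp (asymp D hD c C0 hcpos hC0pos)
  refine ⟨N₀ + N₁ + X₀ + 2 + (Cmax + 1) ^ (128 * D), fun n hn => ?_⟩
  have hnN₀ : N₀ ≤ n := by omega
  have hn2 : 2 ≤ n := by omega
  obtain ⟨hirr, hloc⟩ := hN₀ n hnN₀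
  set X := n - 1 with hX
  have hXn : X + 1 = n := by omega
  obtain ⟨n', ha, hb, hc'⟩ := hX₀ X (by omega)
  set z := 2 ^ (2 ^ (D + n')) with hz
  set G : ℤ[X] := ∏ k, lineRestrict (f k) n with hG
  have hGdeg : G.natDegree ≤ D := by
    refine (natDegree_prod_le _ _).trans ?_
    calc ∑ k : Fin m, (lineRestrict (f k) n).natDegree ≤ ∑ _k : Fin m, d :=
          Finset.sum_le_sum fun k _ => natDegree_lineRestrict_le (f k) n d (hdeg k)
      _ = D := by simp [hDdef]
  have hGeval : ∀ x : ℤ, G.eval x = ∏ k, (lineRestrict (f k) n).eval x := fun x => by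
    rw [hG, eval_prod]
  have hloc' : ∀ p : ℕ, p.Prime → ¬ ∀ x : ℤ, (p : ℤ) ∣ G.eval x := fun p hp h =>
    hloc p hp (fun x => by rw [← hGeval]; exact h x)
  have hsieve := sieve_main D n' hD (fun p x => (p : ℤ) ∣ G.eval (x : ℤ))
    (fun p x => periodic_dvd G p x) (fun p hp => card_roots_mod_le G p D hp hGdeg (hloc' p hp))
    (fun p hp => card_roots_mod_lt G p hp (hloc' p hp)) X
  -- the exceptional polynomial
  set H : ℤ[X] := ∏ k, ((lineRestrict (f k) n) ^ 2 - 1) with hH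
  have hHne : H ≠ 0 := by
    rw [hH, Finset.prod_ne_zero_iff]
    intro k _ h0
    apply (hirr k).not_isUnit
    exact IsUnit.of_mul_eq_one (lineRestrict (f k) n) (by linear_combination h0)
  have hHdeg : H.natDegree ≤ 2 * D := by
    refine (natDegree_prod_le _ _).trans ?_
    calc ∑ k : Fin m, ((lineRestrict (f k) n) ^ 2 - 1).natDegree ≤ ∑ _k : Fin m, 2 * d := by
          apply Finset.sum_le_sum
          intro k _
          refine (natDegree_sub_le _ _).trans ?_
          rw [natDegree_one]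
          refine max_le ?_ (by omega)
          refine natDegree_pow_le.trans ?_
          exact Nat.mul_le_mul_left 2 (natDegree_lineRestrict_le (f k) n d (hdeg k))
      _ = 2 * D := by simp [hDdef]; ring
  have hHeval : ∀ x : ℤ, H.eval x = ∏ k, ((lineRestrict (f k) n).eval x ^ 2 - 1) := fun x => by
    rw [hH, eval_prod]
    simp
  have hexc := card_int_roots_le H hHne (Ico 1 (1 + X))
  -- good set
  set S := (Ico 1 (1 + X)).filter (fun x : ℕ => ∀ p : ℕ, p.Prime → p ≤ z →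
    ¬ (p : ℤ) ∣ G.eval (x : ℤ)) with hS
  set R := (Ico 1 (1 + X)).filter (fun x : ℕ => H.eval (x : ℤ) = 0) with hR
  set good := ((Ioo 0 n).filter (fun x : ℕ => ∀ k, 1 < |val (f k) x ((n : ℤ) - x)| ∧
          (∀ p : ℕ, p.Prime → (p : ℤ) ∣ val (f k) x ((n : ℤ) - x) → n < p ^ (128 * D)) ∧
          ArithmeticFunction.cardFactors (val (f k) x ((n : ℤ) - x)).natAbs
            ≤ 128 * D * d)) with hgood
  have hz2 : 2 ≤ z := by
    have h1 : 1 ≤ 2 ^ (D + n') := Nat.one_le_two_pow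
    calc 2 = 2 ^ 1 := by norm_num
      _ ≤ z := Nat.pow_le_pow_right (by norm_num) h1
  have hzn : n ≤ z ^ (128 * D) := by omega
  have hzC : Cmax + 1 ≤ z := by
    have h1 : (Cmax + 1) ^ (128 * D) ≤ z ^ (128 * D) := by omega
    exact (Nat.pow_le_pow_iff_left (by omega)).mp h1
  have hsub : S \ R ⊆ good := by
    intro x hx
    rw [Finset.mem_sdiff, hS, hR, Finset.mem_filter, Finset.mem_filter] at hx
    obtain ⟨⟨hx1, hx2⟩, hx3⟩ := hx
    have hHx : H.eval (x : ℤ) ≠ 0 := fun h => hx3 ⟨hx1, h⟩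
    rw [Finset.mem_Ico] at hx1
    rw [hgood, Finset.mem_filter, Finset.mem_Ioo]
    refine ⟨by omega, fun k => ?_⟩
    have hval : val (f k) x ((n : ℤ) - x) = (lineRestrict (f k) n).eval (x : ℤ) :=
      (eval_lineRestrict (f k) n x).symm
    rw [hval]
    set a := (lineRestrict (f k) n).eval (x : ℤ) with hadef
    have hadvd : a ∣ G.eval (x : ℤ) := by
      rw [hGeval]
      exact Finset.dvd_prod_of_mem (fun k => (lineRestrict (f k) n).eval (x : ℤ)) (Finset.mem_univ k)
    have hprime : ∀ p : ℕ, p.Prime → (p : ℤ) ∣ a → z < p := by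
      intro p hp hpa
      by_contra hle
      push Not at hle
      exact hx2 p hp hle (hpa.trans hadvd)
    have ha0 : a ≠ 0 := by
      intro h0
      have := hprime 2 Nat.prime_two (by rw [h0]; exact dvd_zero _)
      omega
    have ha1 : a ^ 2 - 1 ≠ 0 := by
      intro h0
      apply hHx
      rw [hHeval]
      exact Finset.prod_eq_zero (Finset.mem_univ k) h0
    have habs : 1 < |a| := by
      have h1 : 0 < |a| := abs_pos.mpr ha0
      have h2 : |a| ≠ 1 := by
        intro h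
        apply ha1
        rw [← sq_abs, h]
        norm_num
      omega
    refine ⟨habs, ?_, ?_⟩
    · intro p hp hpa
      have := hprime p hp hpa
      calc n ≤ z ^ (128 * D) := hzn
        _ < p ^ (128 * D) := Nat.pow_lt_pow_left this (by omega)
    · have hna : a.natAbs ≠ 0 := Int.natAbs_ne_zero.mpr ha0
      have h1 := pow_cardFactors_le (N := a.natAbs) (z := z) hna (fun p hp hpa =>
        (hprime p hp (Int.natCast_dvd.mpr hpa)).le)
      have h2 : (a.natAbs : ℤ) ≤ Cf k * (n : ℤ) ^ d := by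
        rw [Int.natCast_natAbs, ← hval]
        apply hCf k n (by omega)
        · rw [abs_le]; constructor <;> omega
        · rw [abs_le]; constructor <;> omega
      have h3 : a.natAbs ≤ Cf k * n ^ d := by exact_mod_cast h2
      have h4 : Cf k ≤ Cmax := Finset.single_le_sum (fun i _ => Nat.zero_le _) (Finset.mem_univ k)
      have h5 : a.natAbs < z ^ (128 * D * d + 1) := by
        calc a.natAbs ≤ Cf k * n ^ d := h3
          _ ≤ Cmax * n ^ d := Nat.mul_le_mul_right _ h4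
          _ < z * n ^ d := by
              apply Nat.mul_lt_mul_of_pos_right (by omega)
              positivity
          _ ≤ z * (z ^ (128 * D)) ^ d := Nat.mul_le_mul_left _ (Nat.pow_le_pow_left hzn d)
          _ = z ^ (128 * D * d + 1) := by rw [← pow_mul, pow_succ]; ring
      have h6 := lt_of_le_of_lt h1 h5
      have h7 := (Nat.pow_lt_pow_iff_right (by omega : 1 < z)).mp h6
      omega
  have hcard : (S.card : ℝ) - 2 * D ≤ (good.card : ℝ) := by
    have h1 := Finset.card_le_card hsub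
    have h2 := Finset.le_card_sdiff R S
    have h3 : S.card ≤ good.card + 2 * D := by omega
    have h4 : (S.card : ℝ) ≤ ((good.card + 2 * D : ℕ) : ℝ) := by exact_mod_cast h3
    push_cast at h4
    linarith
  -- analytic part
  have hXne : X ≠ 0 := by omega
  have hL := log_two_le n X hXne (by omega)
  have hlog : 0 ≤ Real.log n := Real.log_natCast_nonneg n
  have hpow : (2 : ℝ) ^ (D + n') ≤ 2 * Real.log n := by
    refine le_trans ?_ hL
    exact_mod_cast ha
  have hpow' : (2 : ℝ) ^ n' ≤ 2 * Real.log n :=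
    (pow_le_pow_right₀ (by norm_num) (by omega)).trans hpow
  have hn'1 : (n' : ℝ) + 1 ≤ 2 * Real.log n := by
    refine le_trans ?_ hpow'
    have : n' + 1 ≤ 2 ^ n' := Nat.lt_two_pow_self
    exact_mod_cast this
  have hsqrt : (2 : ℝ) ^ (2 ^ (D + n') * (24 * D + 8)) ≤ Real.sqrt n := by
    apply Real.le_sqrt_of_sq_le
    have h1 : (2 ^ (2 ^ (D + n') * (24 * D + 8))) ^ 2 ≤ n := hb.trans (by omega)
    exact_mod_cast h1
  have hmain1 : ((n : ℝ) - 1) * c / (2 * Real.log n) ^ (4 * D) ≤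
      (X : ℝ) * ((∏ p ∈ small D, (1 / (p : ℝ))) * (1 / 2) ^ (4 * D * n') * (1 / 2)) := by
    have h1 : (X : ℝ) = (n : ℝ) - 1 := by
      have : ((X + 1 : ℕ) : ℝ) = n := by exact_mod_cast hXn
      push_cast at this
      linarith
    have h2 : (1 / (2 * Real.log n) ^ (4 * D)) ≤ (1 / 2 : ℝ) ^ (4 * D * n') := by
      rw [one_div_pow, mul_comm (4 * D) n', pow_mul (2 : ℝ) n' (4 * D)]
      apply one_div_le_one_div_of_le (by positivity)
      exact pow_le_pow_left₀ (by positivity) hpow' _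
    have h3 : 0 ≤ (X : ℝ) * c := by positivity
    have h4 := mul_le_mul_of_nonneg_left h2 h3
    rw [← h1]
    calc (X : ℝ) * c / (2 * Real.log n) ^ (4 * D) = (X : ℝ) * c * (1 / (2 * Real.log n) ^ (4 * D)) := by
          ring
      _ ≤ (X : ℝ) * c * (1 / 2 : ℝ) ^ (4 * D * n') := h4
      _ = _ := by rw [hc]; ring
  have hmain2 : C0 * (n' + 1) * 2 ^ (2 ^ (D + n') * (24 * D + 8)) ≤
      C0 * (2 * Real.log n) * Real.sqrt n := by
    apply mul_le_mul _ hsqrt (by positivity) (by positivity)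
    exact mul_le_mul_of_nonneg_left hn'1 hC0pos
  have hfin := hN₁ n (by omega)
  have hsieve' : (X : ℝ) * ((∏ p ∈ small D, (1 / (p : ℝ))) * (1 / 2) ^ (4 * D * n') * (1 / 2))
      - C0 * (n' + 1) * 2 ^ (2 ^ (D + n') * (24 * D + 8)) ≤ (S.card : ℝ) := hsieve
  have hset : {x : ℕ | 0 < x ∧ x < n ∧ ∀ k, 1 < |val (f k) x ((n : ℤ) - x)| ∧
          (∀ p : ℕ, p.Prime → (p : ℤ) ∣ val (f k) x ((n : ℤ) - x) → n < p ^ (128 * D)) ∧
          ArithmeticFunction.cardFactors (val (f k) x ((n : ℤ) - x)).natAbs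
            ≤ 128 * D * d} = (good : Set ℕ) := by
    ext x
    rw [hgood]
    simp only [Set.mem_ofPred_eq, Finset.coe_filter, Finset.mem_Ioo, and_assoc]
  rw [hset, Set.ncard_coe_finset]
  linarith

end Pool.Agent.Lib.MP_0da313_nt
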