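import Mathlib
import Pool.Agent.Lib.MP_0da313_nt.Final

open Pool.Agent.Lib.MP_0da313_nt

namespace Pool.Agent.Lib.MP_0da313_nt.OldAlmostPrimeValues

/-- Almost-prime form of the assertion for EVERY admissible family, uniformly in `n`:
for an admissible family of `m` polynomials of total degree at most `d` and every large `n`, at
least `n / (log n)^(5md)` of the pairs `x + y = n` of positive integers have, for every `k`,
`|f_k(x,y)| > 1` with at most `128 m d^2` prime factors (with multiplicity), all of them larger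
than `n^(1/(128 m d))`. -/
theorem result (m d : ℕ) (hm : 1 ≤ m) (hd : 1 ≤ d) (f : Fin m → MvPolynomial (Fin 2) ℤ)
    (hdeg : ∀ k, (f k).totalDegree ≤ d) (hf : Admissible f) :
    ∃ N : ℕ, ∀ n : ℕ, N ≤ n →
      (n : ℝ) / (Real.log n) ^ (5 * (m * d)) ≤
        (Set.ncard {x : ℕ | 0 < x ∧ x < n ∧ ∀ k, 1 < |val (f k) x ((n : ℤ) - x)| ∧
          (∀ p : ℕ, p.Prime → (p : ℤ) ∣ val (f k) x ((n : ℤ) - x) → n < p ^ (128 * (m * d))) ∧
          ArithmeticFunction.cardFactors (val (f k) x ((n : ℤ) - x)).natAbs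
            ≤ 128 * (m * d) * d} : ℝ) :=
  main m d hm hd f hdeg hf

end Pool.Agent.Lib.MP_0da313_nt.OldAlmostPrimeValues
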