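import Mathlib
import Pool.Agent.Lib.MP_0da313_nt.MT.Sharp

open Pool.Agent.Lib.MP_0da313_nt

namespace Pool.Agent.Lib.MP_0da313_nt.OldLinearMemberPrimeSharp

/-- One linear member is prime and all the others are almost prime, for EVERY admissible family
and EVERY large `n`, with a lower bound of the expected order of magnitude: for an admissible
family of `m` polynomials of total degree at most `d`, one of which, `f_{k₀}`, has total degree at
most `1`, and for every large `n`, at least `(n / (10^10 m d)) * ∏_{p ≤ n} (1 - ω_n(p)/p)` of the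
pairs `x + y = n` of positive integers have `|f_{k₀}(x,y)|` prime and, for every `k`,
`|f_k(x,y)| > 1` with at most `16000 m d^2` prime factors (with multiplicity), all of them larger
than `n^(1/(16000 m d))`. Here `ω_n(p)` is the number of residues `r` modulo `p` such that `p`
divides `∏_k f_k(r, n - r)`. -/
theorem result (m d : ℕ) (hm : 1 ≤ m) (hd : 1 ≤ d) (f : Fin m → MvPolynomial (Fin 2) ℤ)
    (hdeg : ∀ k, (f k).totalDegree ≤ d) (hf : Admissible f) (k₀ : Fin m)
    (hlin : (f k₀).totalDegree ≤ 1) :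
    ∃ N : ℕ, ∀ n : ℕ, N ≤ n →
      (n : ℝ) * singV f n / (10 ^ 10 * (m * d)) ≤
        (Set.ncard {x : ℕ | 0 < x ∧ x < n ∧ (val (f k₀) x ((n : ℤ) - x)).natAbs.Prime ∧
          ∀ k, 1 < |val (f k) x ((n : ℤ) - x)| ∧
          (∀ p : ℕ, p.Prime → (p : ℤ) ∣ val (f k) x ((n : ℤ) - x) → n < p ^ (16000 * (m * d))) ∧
          ArithmeticFunction.cardFactors (val (f k) x ((n : ℤ) - x)).natAbs
            ≤ 16000 * (m * d) * d} : ℝ) :=
  Pool.Agent.MT.prime_value_sharp m d hm hd f hdeg hf k₀ hlin

end Pool.Agent.Lib.MP_0da313_nt.OldLinearMemberPrimeSharp
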