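import Mathlib
import Pool.Agent.Lib.MP_0da313_nt.NC.Final

open Pool.Agent.Lib.MP_0da313_nt

namespace Pool.Agent.Results.MP_0da313_nt.NonlinearCluster

open Classical in
/-- Clusters of primes among the values of NONLINEAR members, for almost all `n`. There is an absolute
constant `c₀ > 0`, and for all `m, D` there are `B` and `c > 0`, such that for every admissible family
`f` of `m` polynomials of total degree at most `D`, every `d ≥ 2` and every nonempty set `I` of members
of the form `f_k = a_k (x + y) + g_k(x)`, `a_k ≠ 0`, `deg g_k = d`, pairwise different up to sign, the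
following holds for all `n ≤ N` with at most `N/(log N)^A` exceptions (`A` arbitrary, `N` large): at
least `c * n^(1/d) * ∏_{p ≤ n} (1 - ω_n(p)/p)` of the pairs `x + y = n` of positive integers with
`x ≤ n^(1/d)` have at least `max(1, (c₀/d) * log |I|)` primes among the `|f_k(x,y)|`, `k ∈ I`, while for
every `k` `|f_k(x,y)| > 1`, all prime factors of `f_k(x,y)` are larger than `n^(1/B)` and there are at
most `B * D` of them, with multiplicity. Here `ω_n(p)` is the number of residues `r` modulo `p` such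
that `p` divides `∏_k f_k(r, n - r)`. -/
theorem result : ∃ c₀ : ℝ, 0 < c₀ ∧ ∀ m D : ℕ, 1 ≤ m → 1 ≤ D →
    ∃ (B : ℕ) (c : ℝ), 0 < c ∧ ∀ f : Fin m → MvPolynomial (Fin 2) ℤ,
      Admissible f → (∀ k, (f k).totalDegree ≤ D) →
      ∀ (d : ℕ) (I : Finset (Fin m)), 2 ≤ d → I.Nonempty →
      ∀ (a : Fin m → ℤ) (g : Fin m → Polynomial ℤ),
      (∀ k ∈ I, a k ≠ 0 ∧ (g k).natDegree = d ∧ f k = MvPolynomial.C (a k) *
        (MvPolynomial.X 0 + MvPolynomial.X 1) + Polynomial.aeval (MvPolynomial.X 0) (g k)) →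
      (∀ k ∈ I, ∀ l ∈ I, k ≠ l → f k ≠ f l ∧ f k ≠ - f l) →
      ∀ A : ℕ, ∀ᶠ N : ℕ in Filter.atTop,
        (((Finset.Icc 1 N).filter (fun n : ℕ => ¬ (c * ((n : ℝ) ^ (1 / (d : ℝ)) * singV f n) ≤
          (Set.ncard {x : ℕ | 0 < x ∧ x < n ∧ x ^ d ≤ n ∧
            (c₀ * Real.log I.card ≤
              d * ((I.filter (fun k => (val (f k) x ((n : ℤ) - x)).natAbs.Prime)).card : ℝ) ∧
              1 ≤ (I.filter (fun k => (val (f k) x ((n : ℤ) - x)).natAbs.Prime)).card) ∧
            ∀ k, 1 < |val (f k) x ((n : ℤ) - x)| ∧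
            (∀ p : ℕ, p.Prime → (p : ℤ) ∣ val (f k) x ((n : ℤ) - x) → n < p ^ B) ∧
            ArithmeticFunction.cardFactors (val (f k) x ((n : ℤ) - x)).natAbs ≤ B * D} :
              ℝ)))).card : ℝ)
        ≤ N / (Real.log N) ^ A :=
  Pool.Agent.NC.F.h_fin Pool.Agent.NC.h_EX

end Pool.Agent.Results.MP_0da313_nt.NonlinearCluster
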