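import Mathlib
import Pool.Agent.Lib.MP_0da313_nt.PD.Density

open Pool.Agent.Lib.MP_0da313_nt Polynomial

namespace Pool.Agent.Lib.MP_0da313_nt.OldPositiveDensity

/-- The conclusion of Q1 (all the values are prime) holds for a positive proportion of all positive
integers `n`, for every admissible family of at most two polynomials of the following kind: for
some direction `(u, v) ≠ (0, 0)` of nonnegative integers, one member `f_{k₀}` is affine along the
direction `(u, v)` (on the lines `x = u t + s`, `y = v t - s` its value is `a(s) t + b(s)` with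
polynomials `a ≠ 0` and `b`), and the other member, if there is one, is constant along `(u, v)` and
linear in `s`. For `(u, v) = (0, 1)` the first condition says that `f_{k₀}` has degree one in `y`
(for example `x y + 1`), and the second one that the other member is a linear polynomial in `x`
alone. Moreover the representation `n = x + y` can be chosen close to the ray through `(u, v)`:
`|v x - u y| ≤ ε log n (log log n)^(m - 1)`, for every given `ε > 0`. -/
theorem result {m : ℕ} (hm : m ≤ 2) (f : Fin m → MvPolynomial (Fin 2) ℤ) (hf : Admissible f)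
    (u v : ℕ) (huv : 0 < u + v) (k₀ : Fin m)
    (h₀ : ∃ a b : ℤ[X], a ≠ 0 ∧
      ∀ s t : ℤ, val (f k₀) (u * t + s) (v * t - s) = a.eval s * t + b.eval s)
    (h₁ : ∀ k, k ≠ k₀ → ∃ α β : ℤ, ∀ s t : ℤ, val (f k) (u * t + s) (v * t - s) = α * s + β)
    (ε : ℝ) (hε : 0 < ε) :
    ∃ c : ℝ, 0 < c ∧ ∃ N₀ : ℕ, ∀ N : ℕ, N₀ ≤ N →
      c * N ≤ (Set.ncard {n : ℕ | n ≤ N ∧ ∃ x y : ℕ, 0 < x ∧ 0 < y ∧ x + y = n ∧
        |(v : ℝ) * x - u * y| ≤ ε * Real.log n * (Real.log (Real.log n)) ^ (m - 1) ∧
        ∀ k, (val (f k) x y).natAbs.Prime} : ℝ) :=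
  Pool.Agent.PD.positive_density hm f hf u v huv k₀ h₀ h₁ ε hε

end Pool.Agent.Lib.MP_0da313_nt.OldPositiveDensity
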